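import Pool.Agent.Lib.MP_9f2731_nt.LS2

/-! The arithmetical large sieve for squarefree moduli, in dual form. -/

namespace Pool.Agent.Lib.MP_9f2731_nt

open Finset

/-- the weight of a prime at which the classes of `Ω q` are excluded -/
noncomputable def hw (Ω : ℕ → Finset ℕ) (q : ℕ) : ℝ := ((Ω q).card : ℝ) / ((q : ℝ) - (Ω q).card)

/-- the function modulo `q` of mean zero which is `1` at the admissible classes -/
noncomputable def gw (Ω : ℕ → Finset ℕ) (q t : ℕ) : ℝ :=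
  if t ∈ Ω q then -(((q : ℝ) - (Ω q).card) / (Ω q).card) else 1

section prime

variable {Ω : ℕ → Finset ℕ} {q : ℕ}

lemma sum_gw (h1 : Ω q ⊆ range q) (h2 : 0 < (Ω q).card) :
    ∑ t ∈ range q, gw Ω q t = 0 := by
  have hc : ((Ω q).card : ℝ) ≠ 0 := by exact_mod_cast h2.ne'
  have hle : (Ω q).card ≤ q := by
    have := card_le_card h1
    rwa [card_range] at this
  rw [← sum_sdiff h1]
  have e1 : ∑ t ∈ range q \ Ω q, gw Ω q t = (q : ℝ) - (Ω q).card := by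
    rw [sum_congr rfl (g := fun _ => (1 : ℝ)) fun t ht => by
      unfold gw; rw [if_neg (mem_sdiff.mp ht).2]]
    rw [sum_const, card_sdiff_of_subset h1, card_range, nsmul_eq_mul, mul_one, Nat.cast_sub hle]
  have e2 : ∑ t ∈ Ω q, gw Ω q t = -((q : ℝ) - (Ω q).card) := by
    rw [sum_congr rfl (g := fun _ => -(((q : ℝ) - (Ω q).card) / (Ω q).card)) fun t ht => by
      unfold gw; rw [if_pos ht]]
    rw [sum_const, nsmul_eq_mul]
    field_simp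
  rw [e1, e2]
  ring

lemma sum_gw_sq (h1 : Ω q ⊆ range q) (h2 : 0 < (Ω q).card) :
    hw Ω q * ∑ t ∈ range q, gw Ω q t ^ 2 = (q : ℝ) ∨ (Ω q).card = q := by
  by_cases h3 : (Ω q).card = q
  · exact Or.inr h3
  left
  have hc : ((Ω q).card : ℝ) ≠ 0 := by exact_mod_cast h2.ne'
  have hle : (Ω q).card ≤ q := by
    have := card_le_card h1
    rwa [card_range] at this
  have hlt : ((Ω q).card : ℝ) < q := by exact_mod_cast lt_of_le_of_ne hle h3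
  have hsub : ((q : ℝ) - (Ω q).card) ≠ 0 := by linarith
  rw [← sum_sdiff h1]
  have e1 : ∑ t ∈ range q \ Ω q, gw Ω q t ^ 2 = (q : ℝ) - (Ω q).card := by
    rw [sum_congr rfl (g := fun _ => (1 : ℝ)) fun t ht => by
      unfold gw; rw [if_neg (mem_sdiff.mp ht).2, one_pow]]
    rw [sum_const, card_sdiff_of_subset h1, card_range, nsmul_eq_mul, mul_one, Nat.cast_sub hle]
  have e2 : ∑ t ∈ Ω q, gw Ω q t ^ 2 = ((q : ℝ) - (Ω q).card) ^ 2 / (Ω q).card := by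
    rw [sum_congr rfl (g := fun _ => (((q : ℝ) - (Ω q).card) / (Ω q).card) ^ 2) fun t ht => by
      unfold gw; rw [if_pos ht, neg_sq]]
    rw [sum_const, nsmul_eq_mul]
    field_simp
  rw [e1, e2]
  unfold hw
  field_simp
  ring

end prime

/-- the numerator of `∑ b_q / q` -/
def numer (D : Finset ℕ) (b : ∀ q ∈ D, ℕ) : ℕ :=
  ∑ x ∈ D.attach, b x.1 x.2 * ∏ r ∈ D.erase x.1, r

lemma numer_div (D : Finset ℕ) (hD : ∀ q ∈ D, q.Prime) (b : ∀ q ∈ D, ℕ) :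
    ∑ x ∈ D.attach, (b x.1 x.2 : ℝ) / (x.1 : ℝ) = (numer D b : ℝ) / (∏ r ∈ D, (r : ℝ)) := by
  unfold numer
  push_cast
  rw [sum_div]
  refine sum_congr rfl fun x _ => ?_
  have hx : (x.1 : ℝ) ≠ 0 := by exact_mod_cast (hD x.1 x.2).ne_zero
  have hP : (∏ r ∈ D, (r : ℝ)) ≠ 0 := prod_ne_zero_iff.mpr fun r hr => by
    exact_mod_cast (hD r hr).ne_zero
  have h1 : (∏ r ∈ D, (r : ℝ)) = x.1 * ∏ r ∈ D.erase x.1, (r : ℝ) :=
    (mul_prod_erase D (fun r => (r : ℝ)) x.2).symm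
  rw [div_eq_div_iff hx hP, h1]
  ring

lemma numer_mod (D : Finset ℕ) (b : ∀ q ∈ D, ℕ) (q : ℕ) (hq : q ∈ D) :
    numer D b ≡ b q hq * ∏ r ∈ D.erase q, r [MOD q] := by
  unfold numer
  rw [← add_sum_erase D.attach _ (mem_attach D ⟨q, hq⟩)]
  have h0 : ∑ x ∈ D.attach.erase ⟨q, hq⟩, b x.1 x.2 * ∏ r ∈ D.erase x.1, r ≡ 0 [MOD q] := by
    rw [Nat.modEq_zero_iff_dvd]
    apply dvd_sum
    intro x hx
    rw [mem_erase] at hx
    have hne : q ≠ x.1 := by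
      intro h
      apply hx.1
      exact Subtype.ext h.symm
    exact (dvd_prod_of_mem (fun r : ℕ => r) (mem_erase.mpr ⟨hne, hq⟩)).mul_left _
  have := h0.add_left (b q hq * ∏ r ∈ D.erase q, r)
  rwa [add_zero] at this

lemma not_dvd_prod_erase (D : Finset ℕ) (hD : ∀ q ∈ D, q.Prime) (q : ℕ) (hq : q ∈ D) :
    ¬ q ∣ ∏ r ∈ D.erase q, r := by
  intro h
  rw [(hD q hq).prime.dvd_finsetProd_iff] at h
  obtain ⟨r, hr, hqr⟩ := h
  rw [mem_erase] at hr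
  exact hr.1 ((Nat.prime_dvd_prime_iff_eq (hD q hq) (hD r hr.2)).mp hqr).symm

lemma numer_not_dvd (D : Finset ℕ) (hD : ∀ q ∈ D, q.Prime) (b : ∀ q ∈ D, ℕ)
    (hb : ∀ q (hq : q ∈ D), 0 < b q hq ∧ b q hq < q) (q : ℕ) (hq : q ∈ D) :
    ¬ q ∣ numer D b := by
  intro h
  have h1 := numer_mod D b q hq
  have h2 : b q hq * ∏ r ∈ D.erase q, r ≡ 0 [MOD q] :=
    h1.symm.trans ((Nat.modEq_zero_iff_dvd).mpr h)
  rw [Nat.modEq_zero_iff_dvd, (hD q hq).dvd_mul] at h2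
  rcases h2 with h2 | h2
  · have := Nat.le_of_dvd (hb q hq).1 h2
    have := (hb q hq).2
    omega
  · exact not_dvd_prod_erase D hD q hq h2

lemma sub_of_rel {D D' : Finset ℕ} (hD : ∀ q ∈ D, q.Prime) (hD' : ∀ q ∈ D', q.Prime)
    {b : ∀ q ∈ D, ℕ} {b' : ∀ q ∈ D', ℕ} (hb : ∀ q (hq : q ∈ D), 0 < b q hq ∧ b q hq < q) {k : ℤ}
    (h : (numer D b : ℤ) * ((∏ r ∈ D', r : ℕ) : ℤ) = (numer D' b' : ℤ) * ((∏ r ∈ D, r : ℕ) : ℤ) +
      ((∏ r ∈ D, r : ℕ) : ℤ) * ((∏ r ∈ D', r : ℕ) : ℤ) * k) : D ⊆ D' := by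
  intro q hq
  have h1 : (q : ℤ) ∣ ((∏ r ∈ D, r : ℕ) : ℤ) := by
    exact_mod_cast dvd_prod_of_mem (fun r : ℕ => r) hq
  have h2 : (q : ℤ) ∣ (numer D b : ℤ) * ((∏ r ∈ D', r : ℕ) : ℤ) := by
    rw [h]
    exact dvd_add (h1.mul_left _) ((h1.mul_right _).mul_right _)
  have h3 : q ∣ numer D b * ∏ r ∈ D', r := by exact_mod_cast h2
  rcases (hD q hq).dvd_mul.mp h3 with h4 | h4
  · exact absurd h4 (numer_not_dvd D hD b hb q hq)
  · rw [(hD q hq).prime.dvd_finsetProd_iff] at h4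
    obtain ⟨r, hr, hqr⟩ := h4
    rwa [(Nat.prime_dvd_prime_iff_eq (hD q hq) (hD' r hr)).mp hqr]

lemma eq_of_rel {D : Finset ℕ} (hD : ∀ q ∈ D, q.Prime)
    {b b' : ∀ q ∈ D, ℕ} (hb : ∀ q (hq : q ∈ D), 0 < b q hq ∧ b q hq < q)
    (hb' : ∀ q (hq : q ∈ D), 0 < b' q hq ∧ b' q hq < q) {k : ℤ}
    (h : (numer D b : ℤ) * ((∏ r ∈ D, r : ℕ) : ℤ) = (numer D b' : ℤ) * ((∏ r ∈ D, r : ℕ) : ℤ) +
      ((∏ r ∈ D, r : ℕ) : ℤ) * ((∏ r ∈ D, r : ℕ) : ℤ) * k) : b = b' := by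
  have hP : ((∏ r ∈ D, r : ℕ) : ℤ) ≠ 0 := by
    have : (∏ r ∈ D, r : ℕ) ≠ 0 := prod_ne_zero_iff.mpr fun r hr => (hD r hr).ne_zero
    exact_mod_cast this
  have h1 : (numer D b : ℤ) = numer D b' + ((∏ r ∈ D, r : ℕ) : ℤ) * k := by
    apply mul_right_cancel₀ hP
    rw [h]; ring
  funext q hq
  have hqD : (q : ℤ) ∣ ((∏ r ∈ D, r : ℕ) : ℤ) := by
    exact_mod_cast dvd_prod_of_mem (fun r : ℕ => r) hq
  have h2 : numer D b' ≡ numer D b [MOD q] := by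
    rw [Nat.modEq_iff_dvd, h1]
    have : (numer D b' : ℤ) + ((∏ r ∈ D, r : ℕ) : ℤ) * k - numer D b' =
        ((∏ r ∈ D, r : ℕ) : ℤ) * k := by ring
    rw [this]
    exact hqD.mul_right _
  have h3 : b' q hq * ∏ r ∈ D.erase q, r ≡ b q hq * ∏ r ∈ D.erase q, r [MOD q] :=
    (numer_mod D b' q hq).symm.trans (h2.trans (numer_mod D b q hq))
  have hcop : Nat.gcd q (∏ r ∈ D.erase q, r) = 1 :=
    ((Nat.Prime.coprime_iff_not_dvd (hD q hq)).mpr (not_dvd_prod_erase D hD q hq))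
  have h4 : b' q hq ≡ b q hq [MOD q] := Nat.ModEq.cancel_right_of_coprime hcop h3
  unfold Nat.ModEq at h4
  rw [Nat.mod_eq_of_lt (hb' q hq).2, Nat.mod_eq_of_lt (hb q hq).2] at h4
  exact h4.symm

/-- the index set of the fractions -/
noncomputable def idx (𝒟 : Finset (Finset ℕ)) : Finset (Σ D : Finset ℕ, ∀ q ∈ D, ℕ) :=
  𝒟.sigma fun D => D.pi fun q => Ioo 0 q

/-- the fractions -/
noncomputable def frc (j : Σ D : Finset ℕ, ∀ q ∈ D, ℕ) : ℝ :=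
  ∑ x ∈ j.1.attach, (j.2 x.1 x.2 : ℝ) / (x.1 : ℝ)

lemma frc_sep (R : ℕ) (𝒟 : Finset (Finset ℕ))
    (h𝒟 : ∀ D ∈ 𝒟, (∀ q ∈ D, q.Prime) ∧ ∏ q ∈ D, q ≤ R) :
    ∀ i ∈ idx 𝒟, ∀ j ∈ idx 𝒟, i ≠ j →
      1 / (R : ℝ) ^ 2 ≤ |(frc i - frc j) - round (frc i - frc j)| := by
  intro i hi j hj hij
  obtain ⟨D, b⟩ := i
  obtain ⟨D', b'⟩ := j
  unfold idx at hi hj
  rw [mem_sigma, mem_pi] at hi hj
  obtain ⟨hD𝒟, hbm⟩ := hi
  obtain ⟨hD𝒟', hbm'⟩ := hj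
  obtain ⟨hD, hDR⟩ := h𝒟 D hD𝒟
  obtain ⟨hD', hDR'⟩ := h𝒟 D' hD𝒟'
  have hb : ∀ q (hq : q ∈ D), 0 < b q hq ∧ b q hq < q := fun q hq => mem_Ioo.mp (hbm q hq)
  have hb' : ∀ q (hq : q ∈ D'), 0 < b' q hq ∧ b' q hq < q := fun q hq => mem_Ioo.mp (hbm' q hq)
  have e1 : frc ⟨D, b⟩ = (numer D b : ℝ) / (∏ r ∈ D, (r : ℝ)) := numer_div D hD b
  have e2 : frc ⟨D', b'⟩ = (numer D' b' : ℝ) / (∏ r ∈ D', (r : ℝ)) := numer_div D' hD' b'
  set k := round (frc ⟨D, b⟩ - frc ⟨D', b'⟩) with hk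
  set M : ℕ := ∏ r ∈ D, r with hM
  set M' : ℕ := ∏ r ∈ D', r with hM'
  have hMr : (∏ r ∈ D, (r : ℝ)) = (M : ℝ) := by rw [hM]; push_cast; rfl
  have hMr' : (∏ r ∈ D', (r : ℝ)) = (M' : ℝ) := by rw [hM']; push_cast; rfl
  have hM0 : 0 < M := prod_pos fun r hr => (hD r hr).pos
  have hM0' : 0 < M' := prod_pos fun r hr => (hD' r hr).pos
  have hM0r : (0 : ℝ) < M := by exact_mod_cast hM0
  have hM0r' : (0 : ℝ) < M' := by exact_mod_cast hM0'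
  set z : ℤ := (numer D b : ℤ) * M' - (numer D' b' : ℤ) * M - (M : ℤ) * M' * k with hz
  have h1 : (frc ⟨D, b⟩ - frc ⟨D', b'⟩) - k = (z : ℝ) / (M * M') := by
    rw [e1, e2, hMr, hMr', hz]
    push_cast
    field_simp
  have hz0 : z ≠ 0 := by
    intro h
    have h2 : (numer D b : ℤ) * (M' : ℤ) = (numer D' b' : ℤ) * (M : ℤ) + (M : ℤ) * (M' : ℤ) * k := by
      rw [hz] at h; linarith
    have h3 : D ⊆ D' := sub_of_rel hD hD' hb h2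
    have h4 : D' ⊆ D := by
      refine sub_of_rel (b := b') (b' := b) (k := -k) hD' hD hb' ?_
      rw [← hM, ← hM']
      rw [h2]; ring
    have h5 : D = D' := Subset.antisymm h3 h4
    subst h5
    have h6 : b = b' := eq_of_rel hD hb hb' h2
    subst h6
    exact hij rfl
  rw [h1, abs_div, abs_of_pos (by positivity : (0 : ℝ) < M * M')]
  have h2 : (1 : ℝ) ≤ |(z : ℝ)| := by
    have : (1 : ℤ) ≤ |z| := Int.one_le_abs hz0
    exact_mod_cast this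
  have hR : (M : ℝ) ≤ R := by exact_mod_cast hDR
  have hR' : (M' : ℝ) ≤ R := by exact_mod_cast hDR'
  have hR0 : (0 : ℝ) < R := hM0r.trans_le hR
  rw [div_le_div_iff₀ (by positivity) (by positivity)]
  have h3 : (M : ℝ) * M' ≤ (R : ℝ) ^ 2 := by
    rw [sq]
    exact mul_le_mul hR hR' hM0r'.le hR0.le
  nlinarith [sq_nonneg (R : ℝ)]

/-- The arithmetical large sieve. -/
theorem arith_ls (N R : ℕ) (𝒟 : Finset (Finset ℕ)) (Ω : ℕ → Finset ℕ)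
    (h𝒟 : ∀ D ∈ 𝒟, (∀ q ∈ D, q.Prime) ∧ ∏ q ∈ D, q ≤ R)
    (hΩ : ∀ D ∈ 𝒟, ∀ q ∈ D, Ω q ⊆ range q ∧ 0 < (Ω q).card ∧ (Ω q).card < q)
    (S : Finset ℕ) (hS : ∀ n ∈ S, n < N ∧ ∀ D ∈ 𝒟, ∀ q ∈ D, n % q ∉ Ω q) :
    (S.card : ℝ) * ∑ D ∈ 𝒟, ∏ q ∈ D, hw Ω q ≤ 20 * ((N : ℝ) + (R : ℝ) ^ 2) := by
  classical
  rcases 𝒟.eq_empty_or_nonempty with hPe | ⟨D0, hD0⟩
  · subst hPe
    rw [sum_empty, mul_zero]
    positivity
  have hR1 : 1 ≤ R := by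
    refine le_trans ?_ (h𝒟 D0 hD0).2
    exact Nat.one_le_iff_ne_zero.mpr (prod_ne_zero_iff.mpr fun r hr => ((h𝒟 D0 hD0).1 r hr).ne_zero)
  have hRR : (0 : ℝ) < R := by exact_mod_cast hR1
  have hwpos : ∀ D ∈ 𝒟, ∀ q ∈ D, 0 < hw Ω q := by
    intro D hD q hq
    obtain ⟨_, h2, h3⟩ := hΩ D hD q hq
    unfold hw
    have h4 : ((Ω q).card : ℝ) < q := by exact_mod_cast h3
    have h5 : (0 : ℝ) < (Ω q).card := by exact_mod_cast h2
    exact div_pos h5 (by linarith)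
  set H : ℝ := ∑ D ∈ 𝒟, ∏ q ∈ D, hw Ω q with hH
  have hH0 : 0 < H := sum_pos (fun D hD => prod_pos fun q hq => hwpos D hD q hq) ⟨D0, hD0⟩
  set h : ℕ := N + R ^ 2 with hh
  have hh0 : 0 < h := by positivity
  set c : (Σ D : Finset ℕ, ∀ q ∈ D, ℕ) → ℂ := fun j =>
    ∏ x ∈ j.1.attach, (((hw Ω x.1 / x.1 : ℝ) : ℂ) * gh x.1 (gw Ω x.1) (j.2 x.1 x.2)) with hc
  have hL : 1 ≤ ((2 * h : ℕ) : ℝ) * (1 / (R : ℝ) ^ 2) := by
    rw [mul_one_div, le_div_iff₀ (by positivity), one_mul]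
    have : R ^ 2 ≤ 2 * h := by omega
    exact_mod_cast this
  have h1 := dual_ls (idx 𝒟) frc (δ := 1 / (R : ℝ) ^ 2) (by positivity) (frc_sep R 𝒟 h𝒟) h hh0 hL c
  have hIoo : ∀ q : ℕ, 0 < q → range q = insert 0 (Ioo 0 q) := by
    intro q hq
    ext b
    simp only [mem_range, mem_insert, mem_Ioo]
    omega
  have hexp : ∀ n : ℕ, ∑ j ∈ idx 𝒟, c j * ee (n * frc j) =
      ((∑ D ∈ 𝒟, ∏ q ∈ D, (hw Ω q * gw Ω q (n % q)) : ℝ) : ℂ) := by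
    intro n
    unfold idx
    rw [sum_sigma, Complex.ofReal_sum]
    refine sum_congr rfl fun D hD => ?_
    have hee : ∀ (s : Finset {x // x ∈ D}) (b : ∀ q ∈ D, ℕ),
        ee (n * ∑ x ∈ s, (b x.1 x.2 : ℝ) / (x.1 : ℝ)) =
          ∏ x ∈ s, ee (n * ((b x.1 x.2 : ℝ) / (x.1 : ℝ))) := by
      intro s b
      induction s using Finset.induction_on with
      | empty => simp [ee_zero]
      | insert a s ha ih => rw [sum_insert ha, prod_insert ha, mul_add, ee_add, ih]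
    have h3 : ∀ b ∈ D.pi (fun q => Ioo 0 q), c ⟨D, b⟩ * ee (n * frc ⟨D, b⟩) =
        ∏ x ∈ D.attach, (((hw Ω x.1 / x.1 : ℝ) : ℂ) * (gh x.1 (gw Ω x.1) (b x.1 x.2) *
          ee (n * ((b x.1 x.2 : ℝ) / (x.1 : ℝ))))) := by
      intro b _
      rw [hc]
      dsimp only
      unfold frc
      rw [hee, ← prod_mul_distrib]
      refine prod_congr rfl fun x _ => ?_
      ring
    rw [sum_congr rfl h3]
    rw [← prod_sum D (fun q => Ioo 0 q) (fun q b => (((hw Ω q / q : ℝ) : ℂ) *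
      (gh q (gw Ω q) b * ee (n * ((b : ℝ) / (q : ℝ))))))]
    rw [Complex.ofReal_prod]
    refine prod_congr rfl fun q hq => ?_
    have hq0 : 0 < q := ((h𝒟 D hD).1 q hq).pos
    obtain ⟨hΩ1, hΩ2, hΩ3⟩ := hΩ D hD q hq
    rw [← mul_sum]
    have h4 := gh_inv hq0 (gw Ω q) n
    rw [hIoo q hq0, sum_insert (by simp), gh_zero (sum_gw hΩ1 hΩ2), zero_mul, zero_add] at h4
    rw [h4]
    have hqc : (q : ℂ) ≠ 0 := by exact_mod_cast hq0.ne'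
    push_cast
    field_simp
  have hnorm : ∑ j ∈ idx 𝒟, ‖c j‖ ^ 2 = H := by
    unfold idx
    rw [sum_sigma, hH]
    refine sum_congr rfl fun D hD => ?_
    have h3 : ∀ b ∈ D.pi (fun q => Ioo 0 q), ‖c ⟨D, b⟩‖ ^ 2 =
        ∏ x ∈ D.attach, ((hw Ω x.1 / x.1) ^ 2 * ‖gh x.1 (gw Ω x.1) (b x.1 x.2)‖ ^ 2) := by
      intro b _
      rw [hc]
      dsimp only
      rw [norm_prod, ← prod_pow]
      refine prod_congr rfl fun x _ => ?_
      rw [norm_mul, mul_pow, Complex.norm_real, Real.norm_eq_abs, sq_abs]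
    rw [sum_congr rfl h3]
    rw [← prod_sum D (fun q => Ioo 0 q) (fun q b => ((hw Ω q / q) ^ 2 * ‖gh q (gw Ω q) b‖ ^ 2))]
    refine prod_congr rfl fun q hq => ?_
    have hq0 : 0 < q := ((h𝒟 D hD).1 q hq).pos
    have hq0r : (0 : ℝ) < q := by exact_mod_cast hq0
    obtain ⟨hΩ1, hΩ2, hΩ3⟩ := hΩ D hD q hq
    rw [← mul_sum]
    have h4 := gh_parseval hq0 (gw Ω q)
    rw [hIoo q hq0, sum_insert (by simp), gh_zero (sum_gw hΩ1 hΩ2), norm_zero] at h4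
    rw [← hIoo q hq0] at h4
    have h5 : ∑ b ∈ Ioo 0 q, ‖gh q (gw Ω q) b‖ ^ 2 = (q : ℝ) * ∑ t ∈ range q, gw Ω q t ^ 2 := by
      linarith
    rw [h5]
    have h6 : hw Ω q * ∑ t ∈ range q, gw Ω q t ^ 2 = (q : ℝ) :=
      (sum_gw_sq hΩ1 hΩ2).resolve_right hΩ3.ne
    calc (hw Ω q / q) ^ 2 * ((q : ℝ) * ∑ t ∈ range q, gw Ω q t ^ 2)
        = hw Ω q / q * (hw Ω q * ∑ t ∈ range q, gw Ω q t ^ 2) := by field_simp
      _ = hw Ω q := by rw [h6]; field_simp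
  rw [hnorm] at h1
  have hlow : (S.card : ℝ) * H ^ 2 ≤ ∑ n ∈ range (2 * h), ‖∑ j ∈ idx 𝒟, c j * ee (n * frc j)‖ ^ 2 := by
    have h2 : ∑ n ∈ S, ‖∑ j ∈ idx 𝒟, c j * ee (n * frc j)‖ ^ 2 = (S.card : ℝ) * H ^ 2 := by
      rw [← nsmul_eq_mul, ← sum_const]
      refine sum_congr rfl fun n hn => ?_
      rw [hexp n, Complex.norm_real, Real.norm_eq_abs, sq_abs, hH]
      congr 1
      refine sum_congr rfl fun D hD => prod_congr rfl fun q hq => ?_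
      have : gw Ω q (n % q) = 1 := by
        unfold gw
        rw [if_neg ((hS n hn).2 D hD q hq)]
      rw [this, mul_one]
    rw [← h2]
    refine sum_le_sum_of_subset_of_nonneg ?_ fun n _ _ => by positivity
    intro n hn
    have := (hS n hn).1
    rw [mem_range]
    omega
  have h2 : (S.card : ℝ) * H ^ 2 ≤ 10 * ((2 * h : ℕ) : ℝ) * H := hlow.trans h1
  have h3 : (S.card : ℝ) * H * H ≤ (20 * ((N : ℝ) + (R : ℝ) ^ 2)) * H := by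
    calc (S.card : ℝ) * H * H = (S.card : ℝ) * H ^ 2 := by ring
      _ ≤ 10 * ((2 * h : ℕ) : ℝ) * H := h2
      _ = _ := by rw [hh]; push_cast; ring
  exact le_of_mul_le_mul_right h3 hH0

end Pool.Agent.Lib.MP_9f2731_nt
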