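import Pool.Agent.Lib.MP_9f2731_nt.Sieve

/-! The orders of `2` modulo primes, and the classes excluded by a run of primes. -/

namespace Pool.Agent.Lib.MP_9f2731_nt

open Finset

open scoped Classical in
/-- the classes `t` modulo `q` with `t 2^i = -1` for some `i` -/
noncomputable def Om (q : ℕ) : Finset ℕ := (range q).filter fun t => ∃ i : ℕ, q ∣ t * 2 ^ i + 1

lemma Om_subset (q : ℕ) : Om q ⊆ range q := by
  classical
  unfold Om
  exact filter_subset _ _

lemma Om_card_lt {q : ℕ} (hq : 2 ≤ q) : (Om q).card < q := by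
  classical
  have h1 : Om q ⊂ range q := by
    refine ⟨Om_subset q, fun h => ?_⟩
    have h0 : 0 ∈ Om q := h (mem_range.mpr (by omega))
    unfold Om at h0
    rw [mem_filter] at h0
    obtain ⟨_, i, hi⟩ := h0
    rw [zero_mul, zero_add] at hi
    have := Nat.le_of_dvd one_pos hi
    omega
  have := card_lt_card h1
  rwa [card_range] at this

lemma orderOf_le_Om {q : ℕ} (hq : q.Prime) (hq2 : q ≠ 2) : orderOf (2 : ZMod q) ≤ (Om q).card := by
  classical
  have : Fact q.Prime := ⟨hq⟩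
  set r := orderOf (2 : ZMod q) with hr
  have h2 : (2 : ZMod q) ≠ 0 := by
    intro h
    have : ((2 : ℕ) : ZMod q) = 0 := by exact_mod_cast h
    rw [ZMod.natCast_eq_zero_iff] at this
    exact hq2 ((Nat.prime_dvd_prime_iff_eq hq Nat.prime_two).mp this)
  have h3 : (range r).card ≤ (Om q).card := by
    refine card_le_card_of_injOn (fun i => (-(2 : ZMod q) ^ i).val) ?_ ?_
    · intro i hi
      have hi' : i < r := by simpa using hi
      unfold Om
      simp only [coe_filter, Set.mem_ofPred_eq, mem_range]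
      refine ⟨ZMod.val_lt _, r - i, ?_⟩
      rw [← ZMod.natCast_eq_zero_iff]
      push_cast
      rw [ZMod.natCast_val, ZMod.cast_id', id_eq]
      have : (2 : ZMod q) ^ i * 2 ^ (r - i) = 1 := by
        rw [← pow_add, show i + (r - i) = r by omega, hr, pow_orderOf_eq_one]
      linear_combination -this
    · intro i hi j hj hij
      have hi' : i < r := by simpa using hi
      have hj' : j < r := by simpa using hj
      have h4 : -(2 : ZMod q) ^ i = -(2 : ZMod q) ^ j := ZMod.val_injective q hij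
      have h5 : (2 : ZMod q) ^ i = (2 : ZMod q) ^ j := neg_injective h4
      exact pow_injOn_Iio_orderOf hi' hj' h5
  rwa [card_range] at h3

lemma orderOf_pos' {q : ℕ} (hq : q.Prime) (hq2 : q ≠ 2) :
    0 < orderOf (2 : ZMod q) ∧ orderOf (2 : ZMod q) ≤ q - 1 := by
  have : Fact q.Prime := ⟨hq⟩
  have h2 : (2 : ZMod q) ≠ 0 := by
    intro h
    have : ((2 : ℕ) : ZMod q) = 0 := by exact_mod_cast h
    rw [ZMod.natCast_eq_zero_iff] at this
    exact hq2 ((Nat.prime_dvd_prime_iff_eq hq Nat.prime_two).mp this)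
  have h3 : (2 : ZMod q) ^ (q - 1) = 1 := ZMod.pow_card_sub_one_eq_one h2
  have hq1 : 0 < q - 1 := by have := hq.two_le; omega
  have h4 := orderOf_dvd_of_pow_eq_one h3
  exact ⟨Nat.pos_of_dvd_of_pos h4 hq1, Nat.le_of_dvd hq1 h4⟩

/-- the odd primes `q ≤ y` modulo which `2` has small order -/
noncomputable def smallOrd (y w : ℕ) : Finset ℕ :=
  (Icc 1 y).filter fun q => q.Prime ∧ q ≠ 2 ∧ orderOf (2 : ZMod q) ≤ w

/-- Erdős: few primes have a small order of `2`. -/
lemma card_smallOrd (y w : ℕ) : (smallOrd y w).card ≤ w ^ 2 := by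
  have h1 : ∏ q ∈ smallOrd y w, q ∣ ∏ t ∈ Icc 1 w, (2 ^ t - 1) := by
    apply Finset.prod_primes_dvd
    · intro q hq
      exact (mem_filter.mp hq).2.1.prime
    · intro q hq
      obtain ⟨_, hqp, hq2, hqw⟩ := mem_filter.mp hq
      have hpos := (orderOf_pos' hqp hq2).1
      refine dvd_trans ?_ (dvd_prod_of_mem _ (mem_Icc.mpr ⟨hpos, hqw⟩))
      rw [← ZMod.natCast_eq_zero_iff, Nat.cast_sub Nat.one_le_two_pow]
      push_cast
      rw [pow_orderOf_eq_one, sub_self]
  have h2 : ∏ t ∈ Icc 1 w, (2 ^ t - 1) ≤ 2 ^ (w ^ 2) := by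
    calc ∏ t ∈ Icc 1 w, (2 ^ t - 1) ≤ ∏ _t ∈ Icc 1 w, 2 ^ w := by
          apply prod_le_prod'
          intro t ht
          have := (mem_Icc.mp ht).2
          exact (Nat.sub_le _ _).trans (Nat.pow_le_pow_right (by norm_num) this)
      _ = 2 ^ (w ^ 2) := by
          rw [prod_const, Nat.card_Icc, ← pow_mul]
          congr 1
          rw [show w + 1 - 1 = w by omega, sq]
  have h3 : 2 ^ (smallOrd y w).card ≤ ∏ q ∈ smallOrd y w, q := by
    rw [← prod_const]
    apply prod_le_prod'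
    intro q hq
    exact (mem_filter.mp hq).2.1.two_le
  have h4 : 0 < ∏ t ∈ Icc 1 w, (2 ^ t - 1) := by
    apply prod_pos
    intro t ht
    have h5 := (mem_Icc.mp ht).1
    have : 2 ≤ 2 ^ t := by
      calc 2 = 2 ^ 1 := rfl
        _ ≤ 2 ^ t := Nat.pow_le_pow_right (by norm_num) h5
    omega
  have h5 : 2 ^ (smallOrd y w).card ≤ 2 ^ (w ^ 2) := h3.trans ((Nat.le_of_dvd h4 h1).trans h2)
  exact (Nat.pow_le_pow_iff_right (by norm_num)).mp h5

/-- the odd primes `q ≤ y` modulo which `2` has order greater than `w` -/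
noncomputable def bigOrd (y w : ℕ) : Finset ℕ :=
  (Icc 1 y).filter fun q => q.Prime ∧ q ≠ 2 ∧ w < orderOf (2 : ZMod q)

lemma card_bigOrd (y w : ℕ) : y.primeCounting ≤ (bigOrd y w).card + w ^ 2 + 1 := by
  classical
  have h1 : y.primeCounting = ((Icc 1 y).filter Nat.Prime).card := by
    rw [Nat.primeCounting, Nat.primeCounting', Nat.count_eq_card_filter_range]
    congr 1
    ext q
    simp only [mem_filter, mem_range, mem_Icc]
    constructor
    · rintro ⟨a, b⟩; exact ⟨⟨b.one_le, by omega⟩, b⟩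
    · rintro ⟨⟨_, a⟩, b⟩; exact ⟨by omega, b⟩
  have h2 : (Icc 1 y).filter Nat.Prime ⊆ (bigOrd y w ∪ smallOrd y w) ∪ {2} := by
    intro q hq
    obtain ⟨hq1, hq2⟩ := mem_filter.mp hq
    by_cases h : q = 2
    · exact mem_union_right _ (by simp [h])
    · apply mem_union_left
      by_cases h3 : w < orderOf (2 : ZMod q)
      · exact mem_union_left _ (mem_filter.mpr ⟨hq1, hq2, h, h3⟩)
      · exact mem_union_right _ (mem_filter.mpr ⟨hq1, hq2, h, not_lt.mp h3⟩)
  have h3 := card_le_card h2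
  have h4 := card_union_le (bigOrd y w ∪ smallOrd y w) {2}
  have h5 := card_union_le (bigOrd y w) (smallOrd y w)
  have h6 := card_smallOrd y w
  rw [card_singleton] at h4
  omega

/-- The numbers `m 2^a + 1, m 2^(a+1) + 1, ..., m 2^(a+L-1) + 1` have no prime factor `q ≤ L / 2`,
except possibly themselves (when they are prime). -/
def RoughRun (L m a : ℕ) : Prop :=
  ∀ i < L, ∀ q : ℕ, q.Prime → 2 * q ≤ L → q ∣ m * 2 ^ (a + i) + 1 → q = m * 2 ^ (a + i) + 1

/-- a rough run excludes the classes `Om q` for `2 q ≤ L` -/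
lemma not_mem_Om {m a L q : ℕ} (hm : 1 ≤ m)
    (h : RoughRun L m a) (hq : q.Prime) (hq2 : q ≠ 2) (hqL : 2 * q ≤ L) :
    m % q ∉ Om q := by
  classical
  intro hmem
  unfold Om at hmem
  rw [mem_filter] at hmem
  obtain ⟨_, j, hj⟩ := hmem
  obtain ⟨hr0, hr1⟩ := orderOf_pos' hq hq2
  set r := orderOf (2 : ZMod q) with hr
  have hj' : q ∣ m * 2 ^ j + 1 := by
    rw [← ZMod.natCast_eq_zero_iff] at hj ⊢
    push_cast at hj ⊢
    rw [ZMod.natCast_mod] at hj
    exact hj
  -- choose `i` in `[q, q + r)` with `a + i = j` modulo `r`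
  obtain ⟨i, hi1, hi2, hi3⟩ : ∃ i, q ≤ i ∧ i < q + r ∧ (a + i) ≡ j [MOD r] := by
    refine ⟨q + (j + (a + q) * (r - 1)) % r, by omega, ?_, ?_⟩
    · have := Nat.mod_lt (j + (a + q) * (r - 1)) hr0
      omega
    · have e1 : a + (q + (j + (a + q) * (r - 1)) % r) ≡ a + (q + (j + (a + q) * (r - 1))) [MOD r] :=
        Nat.ModEq.add_left _ (Nat.ModEq.add_left _ (Nat.mod_modEq _ _))
      refine e1.trans ?_
      have e2 : a + (q + (j + (a + q) * (r - 1))) = j + (a + q) * r := by
        obtain ⟨s, hs⟩ : ∃ s, r = s + 1 := ⟨r - 1, by omega⟩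
        rw [hs, Nat.add_sub_cancel]
        ring
      rw [e2]
      have : (a + q) * r ≡ 0 [MOD r] := by
        rw [Nat.modEq_zero_iff_dvd]; exact dvd_mul_left _ _
      have := this.add_left j
      rwa [add_zero] at this
  have hiL : i < L := by omega
  have hpow : (2 : ZMod q) ^ (a + i) = 2 ^ j := pow_eq_pow_of_modEq hi3 (by rw [hr]; exact pow_orderOf_eq_one _)
  have hdvd : q ∣ m * 2 ^ (a + i) + 1 := by
    rw [← ZMod.natCast_eq_zero_iff] at hj' ⊢
    push_cast at hj' ⊢
    rw [hpow]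
    exact hj'
  have heq : q = m * 2 ^ (a + i) + 1 := h i hiL q hq hqL hdvd
  have h1 : q < 2 ^ q := Nat.lt_two_pow_self
  have h2 : 2 ^ q ≤ 2 ^ (a + i) := Nat.pow_le_pow_right (by norm_num) (by omega)
  have h3 : 1 * 2 ^ (a + i) ≤ m * 2 ^ (a + i) := Nat.mul_le_mul_right _ hm
  omega

end Pool.Agent.Lib.MP_9f2731_nt
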