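import Pool.Agent.Lib.MP_9f2731_nt.Orders

/-! The sieve bound with parameters, and its consequence for large `X`. -/

namespace Pool.Agent.Lib.MP_9f2731_nt

open Finset

/-- the excluded classes shifted by `M` -/
noncomputable def Osh (Ω : ℕ → Finset ℕ) (M q : ℕ) : Finset ℕ :=
  (range q).filter fun t => (t + M) % q ∈ Ω q

lemma Osh_card {Ω : ℕ → Finset ℕ} (M : ℕ) {q : ℕ} (hq : 0 < q) (hΩ : Ω q ⊆ range q) :
    (Osh Ω M q).card = (Ω q).card := by
  have hM : M % q < q := Nat.mod_lt _ hq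
  apply card_bij' (fun t _ => (t + M) % q) (fun c _ => (c + (q - M % q)) % q)
  · intro t ht
    exact (mem_filter.mp ht).2
  · intro c hc
    unfold Osh
    rw [mem_filter, mem_range]
    have hcq : c < q := mem_range.mp (hΩ hc)
    refine ⟨Nat.mod_lt _ hq, ?_⟩
    have e : ((c + (q - M % q)) % q + M) % q = c := by
      have h1 : (c + (q - M % q)) % q + M ≡ c + (q - M % q) + M % q [MOD q] :=
        Nat.ModEq.add (Nat.mod_modEq _ _) (Nat.mod_modEq _ _).symm
      have h2 : c + (q - M % q) + M % q = c + q := by omega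
      rw [h2] at h1
      have h3 : c + q ≡ c [MOD q] := by
        unfold Nat.ModEq; rw [Nat.add_mod_right]
      have h4 := h1.trans h3
      unfold Nat.ModEq at h4
      rw [h4, Nat.mod_eq_of_lt hcq]
    rw [e]
    exact hc
  · intro t ht
    have htq : t < q := mem_range.mp (mem_filter.mp ht).1
    have h1 : (t + M) % q + (q - M % q) ≡ t + M % q + (q - M % q) [MOD q] :=
      Nat.ModEq.add_right _ ((Nat.mod_modEq _ _).trans
        (Nat.ModEq.add_left _ (Nat.mod_modEq _ _).symm))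
    have h2 : t + M % q + (q - M % q) = t + q := by omega
    rw [h2] at h1
    have h3 : t + q ≡ t [MOD q] := by
      unfold Nat.ModEq; rw [Nat.add_mod_right]
    have h4 := h1.trans h3
    unfold Nat.ModEq at h4
    rw [Nat.mod_eq_of_lt htq] at h4
    exact h4
  · intro c hc
    have hcq : c < q := mem_range.mp (hΩ hc)
    have h1 : (c + (q - M % q)) % q + M ≡ c + (q - M % q) + M % q [MOD q] :=
      Nat.ModEq.add (Nat.mod_modEq _ _) (Nat.mod_modEq _ _).symm
    have h2 : c + (q - M % q) + M % q = c + q := by omega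
    rw [h2] at h1
    have h3 : c + q ≡ c [MOD q] := by
      unfold Nat.ModEq; rw [Nat.add_mod_right]
    have h4 := h1.trans h3
    unfold Nat.ModEq at h4
    rw [Nat.mod_eq_of_lt hcq] at h4
    exact h4

/-- the sieve bound when at least `w` classes are excluded modulo each prime of `Q` -/
lemma key (X M w y k R : ℕ) (hR : y ^ k ≤ R) (Q : Finset ℕ) (Ω : ℕ → Finset ℕ)
    (hQ : ∀ q ∈ Q, q.Prime ∧ q ≤ y ∧ Ω q ⊆ range q ∧ w ≤ (Ω q).card ∧ 0 < (Ω q).card ∧
      (Ω q).card < q) (S : Finset ℕ)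
    (hS : ∀ m ∈ S, M < m ∧ m ≤ M + X ∧ ∀ q ∈ Q, m % q ∉ Ω q) :
    (S.card : ℝ) * ((Q.card.choose k : ℝ) * ((w : ℝ) / y) ^ k) ≤
      20 * ((X : ℝ) + 1 + (R : ℝ) ^ 2) := by
  classical
  have hinj : Set.InjOn (fun m => m - M) (S : Set ℕ) := by
    intro m hm m' hm' h
    have h1 := (hS m hm).1
    have h2 := (hS m' hm').1
    dsimp only at h
    omega
  have h1 := arith_ls (X + 1) R (Q.powersetCard k) (Osh Ω M) (by
      intro D hD
      rw [mem_powersetCard] at hD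
      refine ⟨fun q hq => (hQ q (hD.1 hq)).1, ?_⟩
      calc ∏ q ∈ D, q ≤ ∏ _q ∈ D, y := prod_le_prod' fun q hq => (hQ q (hD.1 hq)).2.1
        _ = y ^ k := by rw [prod_const, hD.2]
        _ ≤ R := hR)
    (by
      intro D hD q hq
      rw [mem_powersetCard] at hD
      obtain ⟨h2, h3, h4, h5, h6, h7⟩ := hQ q (hD.1 hq)
      rw [Osh_card M h2.pos h4]
      exact ⟨filter_subset _ _, h6, h7⟩)
    (S.image fun m => m - M) (by
      intro m' hm'
      rw [mem_image] at hm'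
      obtain ⟨m, hm, rfl⟩ := hm'
      obtain ⟨h2, h3, h8'⟩ := hS m hm
      refine ⟨by omega, fun D hD q hq => ?_⟩
      rw [mem_powersetCard] at hD
      have h8 := h8' q (hD.1 hq)
      intro h9
      apply h8
      unfold Osh at h9
      have h10 := (mem_filter.mp h9).2
      have h11 : ((m - M) % q + M) % q = m % q := by
        rw [Nat.mod_add_mod]
        congr 1
        omega
      rwa [h11] at h10)
  rw [card_image_of_injOn hinj] at h1
  have hwO : ∀ D ∈ Q.powersetCard k, ∀ q ∈ D, hw (Osh Ω M) q = hw Ω q := by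
    intro D hD q hq
    rw [mem_powersetCard] at hD
    unfold hw
    rw [Osh_card M (hQ q (hD.1 hq)).1.pos (hQ q (hD.1 hq)).2.2.1]
  rw [sum_congr rfl fun D hD => prod_congr rfl fun q hq => hwO D hD q hq] at h1
  have h2 : ((Q.card.choose k : ℕ) : ℝ) * ((w : ℝ) / y) ^ k ≤
      ∑ D ∈ Q.powersetCard k, ∏ q ∈ D, hw Ω q := by
    rw [← card_powersetCard, ← nsmul_eq_mul, ← sum_const]
    apply sum_le_sum
    intro D hD
    rw [mem_powersetCard] at hD
    rw [← hD.2, ← prod_const]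
    apply prod_le_prod
    · intro q _; positivity
    · intro q hq
      obtain ⟨h4, h5, h6, h7, h8, h9⟩ := hQ q (hD.1 hq)
      unfold hw
      have a1 : ((Ω q).card : ℝ) < q := by exact_mod_cast h9
      have a2 : (w : ℝ) ≤ (Ω q).card := by exact_mod_cast h7
      have a3 : (q : ℝ) ≤ y := by exact_mod_cast h5
      have a4 : (0 : ℝ) < (q : ℝ) - (Ω q).card := by linarith
      have a5 : (q : ℝ) - (Ω q).card ≤ y := by
        have : (0 : ℝ) ≤ (Ω q).card := by positivity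
        linarith
      exact div_le_div₀ (by positivity) a2 a4 a5
  calc (S.card : ℝ) * ((Q.card.choose k : ℝ) * ((w : ℝ) / y) ^ k)
      ≤ (S.card : ℝ) * ∑ D ∈ Q.powersetCard k, ∏ q ∈ D, hw Ω q :=
        mul_le_mul_of_nonneg_left h2 (by positivity)
    _ ≤ 20 * (((X + 1 : ℕ) : ℝ) + (R : ℝ) ^ 2) := h1
    _ = _ := by push_cast; ring

lemma choose_ge {n k : ℕ} (hk : 1 ≤ k) (hkn : 2 * k ≤ n) :
    ((n : ℝ) / (2 * k)) ^ k ≤ (n.choose k : ℝ) := by
  have h1 := Nat.pow_le_choose (α := ℝ) k n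
  refine le_trans ?_ h1
  have hk0 : (0 : ℝ) < k := by exact_mod_cast hk
  have h2 : (n : ℝ) / 2 ≤ ((n + 1 - k : ℕ) : ℝ) := by
    rw [Nat.cast_sub (by omega)]
    push_cast
    have : (2 * (k : ℝ)) ≤ n := by exact_mod_cast hkn
    linarith
  have h3 : ((k.factorial : ℕ) : ℝ) ≤ (k : ℝ) ^ k := by exact_mod_cast Nat.factorial_le_pow k
  have h4 : (0 : ℝ) < (k.factorial : ℕ) := by exact_mod_cast k.factorial_pos
  calc ((n : ℝ) / (2 * k)) ^ k = ((n : ℝ) / 2) ^ k / (k : ℝ) ^ k := by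
        rw [← div_pow, div_div]
    _ ≤ (((n + 1 - k : ℕ) : ℝ)) ^ k / (k.factorial : ℕ) := by
        apply div_le_div₀ (by positivity) (pow_le_pow_left₀ (by positivity) h2 k) h4 h3

open Filter Topology

/-- facts that hold for all large `y` -/
lemma ev_y {δ : ℝ} (hδ : 0 < δ) (hδ' : δ < 1 / 8) {A : ℝ} (hA : 2 < A) :
    ∀ᶠ y : ℕ in atTop, (y : ℝ) ^ (1 - δ) ≤ (bigOrd y ⌊(y : ℝ) ^ (1 / 2 - δ)⌋₊).card ∧
      (y : ℝ) ^ (1 / 2 - δ) / 2 ≤ (⌊(y : ℝ) ^ (1 / 2 - δ)⌋₊ : ℝ) ∧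
      12 ≤ (y : ℝ) ^ δ ∧ 6 * (y : ℝ) ^ (1 / A) ≤ (y : ℝ) ^ (1 - δ) ∧ 3 ≤ y := by
  have hcast : Tendsto (fun y : ℕ => (y : ℝ)) atTop atTop := tendsto_natCast_atTop_atTop
  have e1 : ∀ᶠ y : ℕ in atTop, 12 * Real.log y ≤ (y : ℝ) ^ δ := by
    have h := (isLittleO_log_rpow_atTop hδ).bound (show (0 : ℝ) < 1 / 12 by norm_num)
    have h' := hcast.eventually h
    filter_upwards [h', eventually_ge_atTop 1] with y hy hy1
    have hy1' : (1 : ℝ) ≤ y := by exact_mod_cast hy1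
    rw [Real.norm_of_nonneg (Real.log_nonneg hy1'), Real.norm_of_nonneg (by positivity)] at hy
    linarith
  have e2 : ∀ᶠ y : ℕ in atTop, (12 : ℝ) ≤ (y : ℝ) ^ δ :=
    ((tendsto_rpow_atTop hδ).comp hcast).eventually_ge_atTop 12
  have e3 : ∀ᶠ y : ℕ in atTop, (6 : ℝ) ≤ (y : ℝ) ^ (1 - δ - 1 / A) := by
    have hA' : 1 / A < 1 / 2 := one_div_lt_one_div_of_lt (by norm_num) hA
    exact ((tendsto_rpow_atTop (by linarith)).comp hcast).eventually_ge_atTop 6
  have e4 : ∀ᶠ y : ℕ in atTop, (2 : ℝ) ≤ (y : ℝ) ^ (1 / 2 - δ) :=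
    ((tendsto_rpow_atTop (by linarith)).comp hcast).eventually_ge_atTop 2
  filter_upwards [e1, e2, e3, e4, eventually_ge_atTop 3] with y h1 h2 h3 h4 h5
  have hy3 : (3 : ℝ) ≤ y := by exact_mod_cast h5
  have hy0 : (0 : ℝ) < y := by linarith
  set w := ⌊(y : ℝ) ^ (1 / 2 - δ)⌋₊ with hw
  have hw1 : (w : ℝ) ≤ (y : ℝ) ^ (1 / 2 - δ) := Nat.floor_le (by positivity)
  have hw2 : (y : ℝ) ^ (1 / 2 - δ) < (w : ℝ) + 1 := Nat.lt_floor_add_one _
  refine ⟨?_, by linarith, h2, ?_, h5⟩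
  · have hpi := Chebyshev.pi_ge y
    have hlog : 0 < Real.log y := Real.log_pos (by linarith)
    have hsplit : (y : ℝ) ^ (1 - δ) * (y : ℝ) ^ δ = y := by
      rw [← Real.rpow_add hy0, show 1 - δ + δ = 1 by ring, Real.rpow_one]
    have hlog1 : Real.log (y + 1) ≤ 2 * Real.log y := by
      have : Real.log (y + 1) ≤ Real.log ((y : ℝ) ^ 2) :=
        Real.log_le_log (by linarith) (by nlinarith)
      rwa [Real.log_pow] at this
    have hlog2 : (0.69 : ℝ) < Real.log 2 := by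
      have := Real.log_two_gt_d9; linarith
    have hy1δ : (0 : ℝ) < (y : ℝ) ^ (1 - δ) := by positivity
    have hyδ : (y : ℝ) ^ δ ≤ y := by
      have h6 : (1 : ℝ) ≤ (y : ℝ) ^ (1 - δ) := Real.one_le_rpow (by linarith) (by linarith)
      have h7 : (0 : ℝ) < (y : ℝ) ^ δ := by positivity
      nlinarith
    have hpi2 : 3 * (y : ℝ) ^ (1 - δ) ≤ (y.primeCounting : ℝ) := by
      refine le_trans ?_ hpi
      rw [le_div_iff₀ hlog]
      have h8 : 3 * (y : ℝ) ^ (1 - δ) * Real.log y ≤ y / 4 := by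
        have : (y : ℝ) ^ (1 - δ) * (12 * Real.log y) ≤ (y : ℝ) ^ (1 - δ) * (y : ℝ) ^ δ :=
          mul_le_mul_of_nonneg_left h1 hy1δ.le
        rw [hsplit] at this
        linarith
      have h9 : (y : ℝ) * 0.69 ≤ y * Real.log 2 := by nlinarith
      linarith
    have hcard := card_bigOrd y w
    have hcard' : (y.primeCounting : ℝ) ≤ (bigOrd y w).card + (w : ℝ) ^ 2 + 1 := by
      exact_mod_cast hcard
    have hw3 : (w : ℝ) ^ 2 ≤ (y : ℝ) ^ (1 - δ) := by
      calc (w : ℝ) ^ 2 ≤ ((y : ℝ) ^ (1 / 2 - δ)) ^ 2 := pow_le_pow_left₀ (by positivity) hw1 2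
        _ = (y : ℝ) ^ (1 - 2 * δ) := by
            rw [← Real.rpow_natCast, ← Real.rpow_mul hy0.le]
            congr 1
            push_cast
            ring
        _ ≤ (y : ℝ) ^ (1 - δ) := Real.rpow_le_rpow_of_exponent_le (by linarith) (by linarith)
    have hone : (1 : ℝ) ≤ (y : ℝ) ^ (1 - δ) := Real.one_le_rpow (by linarith) (by linarith)
    linarith
  · have : (y : ℝ) ^ (1 - δ) = (y : ℝ) ^ (1 - δ - 1 / A) * (y : ℝ) ^ (1 / A) := by
      rw [← Real.rpow_add hy0]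
      congr 1
      ring
    rw [this]
    exact mul_le_mul_of_nonneg_right h3 (by positivity)

end Pool.Agent.Lib.MP_9f2731_nt
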