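import Pool.Agent.Lib.MP_9f2731_nt.Count

/-! The bound for large `X`. -/

namespace Pool.Agent.Lib.MP_9f2731_nt

open Finset Filter Topology

/-- The sieve bound for large `X`: at least `y^(1/2-δ)` classes are excluded modulo each prime
`q ≤ y` for which the order of `2` is that large, `y` about `(log X)^A`. -/
lemma count_bound {A ε : ℝ} (hA : 2 < A) (hε : 0 < ε) :
    ∃ δ : ℝ, 0 < δ ∧ δ < 1 / 8 ∧ ∃ X₀ : ℕ, ∀ X : ℕ, X₀ ≤ X → ∀ y : ℕ,
      Real.log X ^ A ≤ 9 * y → (y : ℝ) ≤ Real.log X ^ A →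
      ∀ (M : ℕ) (Ω : ℕ → Finset ℕ),
      (∀ q ∈ bigOrd y ⌊(y : ℝ) ^ (1 / 2 - δ)⌋₊, Ω q ⊆ range q ∧
        ⌊(y : ℝ) ^ (1 / 2 - δ)⌋₊ ≤ (Ω q).card ∧ 0 < (Ω q).card ∧ (Ω q).card < q) →
      ∀ S : Finset ℕ,
      (∀ m ∈ S, M < m ∧ m ≤ M + X ∧ ∀ q ∈ bigOrd y ⌊(y : ℝ) ^ (1 / 2 - δ)⌋₊, m % q ∉ Ω q) →
      (S.card : ℝ) ≤ (X : ℝ) ^ (3 / 4 + 1 / (2 * A) + ε) := by
  have hA' : 1 / A < 1 / 2 := one_div_lt_one_div_of_lt (by norm_num) hA
  have hA0 : 0 < 1 / A := by positivity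
  -- the parameter δ
  obtain ⟨δ, hδ, hδ1, hδ2, hδ3⟩ : ∃ δ : ℝ, 0 < δ ∧ δ < 1 / 8 ∧ 4 * δ ≤ ε ∧
      4 * δ < 1 / 2 - 1 / A := by
    refine ⟨min (ε / 8) ((1 / 2 - 1 / A) / 8), by positivity, ?_, ?_, ?_⟩
    · have := min_le_right (ε / 8) ((1 / 2 - 1 / A) / 8)
      linarith
    · have := min_le_left (ε / 8) ((1 / 2 - 1 / A) / 8)
      linarith
    · have := min_le_right (ε / 8) ((1 / 2 - 1 / A) / 8)
      linarith
  set β : ℝ := 1 / 2 - 1 / A - 3 * δ with hβ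
  have hβ0 : 0 < β := by rw [hβ]; linarith
  have hβ1 : β < 1 / 2 := by rw [hβ]; linarith
  have hcast : Tendsto (fun X : ℕ => (X : ℝ)) atTop atTop := tendsto_natCast_atTop_atTop
  have hlogt : Tendsto (fun X : ℕ => Real.log X) atTop atTop := Real.tendsto_log_atTop.comp hcast
  obtain ⟨Y₀, hY₀⟩ := eventually_atTop.mp (ev_y hδ hδ1 hA)
  have f1 : ∀ᶠ X : ℕ in atTop, 9 * (Y₀ : ℝ) < Real.log X ^ A :=
    ((tendsto_rpow_atTop (by linarith : 0 < A)).comp hlogt).eventually_gt_atTop _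
  have f2 : ∀ᶠ X : ℕ in atTop, Real.log X ^ A ≤ 1 / 8 * (X : ℝ) ^ δ := by
    have h := (isLittleO_log_rpow_rpow_atTop A hδ).bound (show (0 : ℝ) < 1 / 8 by norm_num)
    filter_upwards [hcast.eventually h, eventually_ge_atTop 1] with X hX hX1
    have hX1' : (1 : ℝ) ≤ X := by exact_mod_cast hX1
    have hl : 0 ≤ Real.log X := Real.log_nonneg hX1'
    rw [Real.norm_of_nonneg (by positivity), Real.norm_of_nonneg (by positivity)] at hX
    exact hX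
  have f3 : ∀ᶠ X : ℕ in atTop, (60 : ℝ) ≤ (X : ℝ) ^ δ :=
    ((tendsto_rpow_atTop hδ).comp hcast).eventually_ge_atTop 60
  have f4 : ∀ᶠ X : ℕ in atTop, (3 : ℝ) ≤ Real.log X := hlogt.eventually_ge_atTop 3
  obtain ⟨X₀, hX₀⟩ := eventually_atTop.mp (((f1.and f2).and (f3.and f4)).and
    (eventually_ge_atTop 16))
  refine ⟨δ, hδ, hδ1, X₀, fun X hX y hy1 hy2' M Ω hΩ S hS => ?_⟩
  obtain ⟨⟨⟨g1, g2⟩, g3, g4⟩, g5⟩ := hX₀ X hX
  have hyY : Y₀ ≤ y := by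
    have : (9 : ℝ) * Y₀ < 9 * y := g1.trans_le hy1
    have h : (Y₀ : ℝ) < y := by linarith
    exact_mod_cast h.le
  obtain ⟨k1, k2, k3, k4, k5⟩ := hY₀ y hyY
  have hX16 : (16 : ℝ) ≤ X := by exact_mod_cast g5
  have hX0 : (0 : ℝ) < X := by linarith
  set w := ⌊(y : ℝ) ^ (1 / 2 - δ)⌋₊ with hw
  set R := Nat.sqrt X with hR
  set k := Nat.log y R with hk
  set n := (bigOrd y w).card with hn
  have hy3 : (3 : ℝ) ≤ y := by exact_mod_cast k5
  have hy0 : (0 : ℝ) < y := by linarith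
  have hlogX0 : 0 < Real.log X := by linarith
  have hyX : (y : ℝ) ≤ 1 / 4 * (X : ℝ) ^ δ := by
    have : (0 : ℝ) < (X : ℝ) ^ δ := by positivity
    linarith
  -- the size of `R`
  have hRlo : (X : ℝ) ^ (1 / 2 : ℝ) / 2 ≤ R := by
    have h1 : X < (R + 1) ^ 2 := by
      have := Nat.lt_succ_sqrt X
      rw [← hR] at this
      rw [sq]; exact this
    have h2 : (X : ℝ) < ((R : ℝ) + 1) ^ 2 := by exact_mod_cast h1
    have h3 : (X : ℝ) ^ (1 / 2 : ℝ) < R + 1 := by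
      rw [← Real.sqrt_eq_rpow]
      rw [Real.sqrt_lt' (by positivity)]
      exact h2
    have h4 : (4 : ℝ) ≤ (X : ℝ) ^ (1 / 2 : ℝ) := by
      rw [← Real.sqrt_eq_rpow]
      apply Real.le_sqrt_of_sq_le
      linarith
    linarith
  have hRup : (R : ℝ) ^ 2 ≤ X := by
    have := Nat.sqrt_le' X
    exact_mod_cast this
  have hRX : (R : ℝ) ≤ X := by
    have : R ≤ X := Nat.sqrt_le_self X
    exact_mod_cast this
  have hyR : y ≤ R := by
    have h1 : (y : ℝ) ≤ R := by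
      refine hyX.trans (le_trans ?_ hRlo)
      have : (X : ℝ) ^ δ ≤ (X : ℝ) ^ (1 / 2 : ℝ) :=
        Real.rpow_le_rpow_of_exponent_le (by linarith) (by linarith)
      have h0 : (0 : ℝ) < (X : ℝ) ^ δ := by positivity
      linarith
    exact_mod_cast h1
  have hy2 : 2 ≤ y := by omega
  have hR0 : R ≠ 0 := by omega
  have hk1 : 1 ≤ k := by
    rw [hk]
    exact Nat.log_pos (by omega) hyR
  have hkR : y ^ k ≤ R := Nat.pow_log_le_self y hR0
  have hkR' : R < y ^ (k + 1) := Nat.lt_pow_succ_log_self (by omega) R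
  -- bound for `k`
  have hklog : (k : ℝ) ≤ Real.log X := by
    have h1 : ((y : ℝ)) ^ k ≤ X := by
      have : ((y ^ k : ℕ) : ℝ) ≤ R := by exact_mod_cast hkR
      push_cast at this
      linarith
    have h2 : Real.log ((y : ℝ) ^ k) ≤ Real.log X := Real.log_le_log (by positivity) h1
    rw [Real.log_pow] at h2
    have h3 : (1 : ℝ) ≤ Real.log y := by
      rw [← Real.log_exp 1]
      apply Real.log_le_log (Real.exp_pos 1)
      have := Real.exp_one_lt_d9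
      linarith
    have hk0 : (0 : ℝ) ≤ k := by positivity
    nlinarith
  have hky : (k : ℝ) ≤ 3 * (y : ℝ) ^ (1 / A) := by
    have h2 : Real.log X ≤ (9 * (y : ℝ)) ^ (1 / A) := by
      have h3 : (Real.log X ^ A) ^ (1 / A) = Real.log X := by
        rw [← Real.rpow_mul hlogX0.le, mul_one_div_cancel (by linarith), Real.rpow_one]
      rw [← h3]
      exact Real.rpow_le_rpow (by positivity) hy1 hA0.le
    have h4 : (9 * (y : ℝ)) ^ (1 / A) = 9 ^ (1 / A) * (y : ℝ) ^ (1 / A) :=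
      Real.mul_rpow (by norm_num) hy0.le
    have h5 : (9 : ℝ) ^ (1 / A) ≤ 3 := by
      calc (9 : ℝ) ^ (1 / A) ≤ 9 ^ (1 / 2 : ℝ) :=
            Real.rpow_le_rpow_of_exponent_le (by norm_num) hA'.le
        _ = 3 := by
            rw [show (9 : ℝ) = 3 ^ (2 : ℝ) by norm_num, ← Real.rpow_mul (by norm_num)]
            norm_num
    have h6 : (0 : ℝ) < (y : ℝ) ^ (1 / A) := by positivity
    calc (k : ℝ) ≤ Real.log X := hklog
      _ ≤ 9 ^ (1 / A) * (y : ℝ) ^ (1 / A) := by rw [← h4]; exact h2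
      _ ≤ 3 * (y : ℝ) ^ (1 / A) := mul_le_mul_of_nonneg_right h5 h6.le
  have h2kn : 2 * k ≤ n := by
    have : (2 * (k : ℝ)) ≤ n := by linarith
    exact_mod_cast this
  have hk0 : (0 : ℝ) < k := by exact_mod_cast hk1
  -- the base
  have hbase : (y : ℝ) ^ β ≤ (n : ℝ) / (2 * k) * ((w : ℝ) / y) := by
    have h1 : (y : ℝ) ^ (1 - δ) / (2 * (3 * (y : ℝ) ^ (1 / A))) ≤ (n : ℝ) / (2 * k) :=
      div_le_div₀ (by positivity) k1 (by positivity) (by linarith)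
    have h2 : (y : ℝ) ^ (1 / 2 - δ) / 2 / y ≤ (w : ℝ) / y :=
      div_le_div_of_nonneg_right k2 hy0.le
    have h3 : (y : ℝ) ^ (1 - δ) / (2 * (3 * (y : ℝ) ^ (1 / A))) *
        ((y : ℝ) ^ (1 / 2 - δ) / 2 / y) = (y : ℝ) ^ (1 / 2 - 1 / A - 2 * δ) / 12 := by
      have e1 : (y : ℝ) ^ (1 / 2 - 1 / A - 2 * δ) * ((y : ℝ) ^ (1 / A) * (y : ℝ) ^ (1 : ℝ)) =
          (y : ℝ) ^ (1 - δ) * (y : ℝ) ^ (1 / 2 - δ) := by
        rw [← Real.rpow_add hy0, ← Real.rpow_add hy0, ← Real.rpow_add hy0]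
        congr 1
        ring
      rw [Real.rpow_one] at e1
      have hne : (y : ℝ) ^ (1 / A) ≠ 0 := by positivity
      rw [div_div, div_mul_div_comm, div_eq_div_iff (by positivity) (by norm_num), ← e1]
      ring
    have h4 : (y : ℝ) ^ β ≤ (y : ℝ) ^ (1 / 2 - 1 / A - 2 * δ) / 12 := by
      have e2 : (y : ℝ) ^ (1 / 2 - 1 / A - 2 * δ) = (y : ℝ) ^ β * (y : ℝ) ^ δ := by
        rw [← Real.rpow_add hy0, hβ]
        congr 1
        ring
      rw [e2, le_div_iff₀ (by norm_num)]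
      exact mul_le_mul_of_nonneg_left k3 (by positivity)
    calc (y : ℝ) ^ β ≤ (y : ℝ) ^ (1 / 2 - 1 / A - 2 * δ) / 12 := h4
      _ = _ := h3.symm
      _ ≤ _ := mul_le_mul h1 h2 (by positivity) (by positivity)
  -- lower bound for the sieve weight
  have hweight : (X : ℝ) ^ ((1 / 2 - δ) * β) ≤ ((n.choose k : ℕ) : ℝ) * ((w : ℝ) / y) ^ k := by
    have h1 : ((y : ℝ) ^ β) ^ k ≤ ((n : ℝ) / (2 * k) * ((w : ℝ) / y)) ^ k :=
      pow_le_pow_left₀ (by positivity) hbase k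
    rw [mul_pow] at h1
    have h2 := choose_ge hk1 h2kn
    have h3 : ((y : ℝ) ^ β) ^ k ≤ ((n.choose k : ℕ) : ℝ) * ((w : ℝ) / y) ^ k :=
      h1.trans (mul_le_mul_of_nonneg_right h2 (by positivity))
    refine le_trans ?_ h3
    have h4 : ((y : ℝ) ^ β) ^ k = ((y : ℝ) ^ k) ^ β := by
      rw [← Real.rpow_natCast, ← Real.rpow_mul hy0.le, ← Real.rpow_natCast, ← Real.rpow_mul hy0.le,
        mul_comm]
    rw [h4, Real.rpow_mul hX0.le]
    apply Real.rpow_le_rpow (by positivity) _ hβ0.le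
    have h5 : (R : ℝ) < (y : ℝ) ^ k * y := by
      have : ((R : ℕ) : ℝ) < ((y ^ (k + 1) : ℕ) : ℝ) := by exact_mod_cast hkR'
      push_cast at this
      rwa [pow_succ] at this
    have h6 : (X : ℝ) ^ (1 / 2 - δ) * (X : ℝ) ^ δ = (X : ℝ) ^ (1 / 2 : ℝ) := by
      rw [← Real.rpow_add hX0]
      congr 1
      ring
    have h7 : (X : ℝ) ^ (1 / 2 - δ) * y ≤ (y : ℝ) ^ k * y := by
      have h8 : (0 : ℝ) < (X : ℝ) ^ (1 / 2 - δ) := by positivity
      calc (X : ℝ) ^ (1 / 2 - δ) * y ≤ (X : ℝ) ^ (1 / 2 - δ) * (1 / 4 * (X : ℝ) ^ δ) :=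
            mul_le_mul_of_nonneg_left hyX h8.le
        _ = 1 / 4 * (X : ℝ) ^ (1 / 2 : ℝ) := by rw [← h6]; ring
        _ ≤ (X : ℝ) ^ (1 / 2 : ℝ) / 2 := by
            have : (0 : ℝ) < (X : ℝ) ^ (1 / 2 : ℝ) := by positivity
            linarith
        _ ≤ R := hRlo
        _ ≤ _ := h5.le
    exact le_of_mul_le_mul_right h7 hy0
  have hfin := key X M w y k R hkR (bigOrd y w) Ω (by
    intro q hq
    obtain ⟨a1, a2, a3, a4⟩ := hΩ q hq
    obtain ⟨b1, b2, b3, b4⟩ := mem_filter.mp hq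
    exact ⟨b2, (mem_Icc.mp b1).2, a1, a2, a3, a4⟩) S hS
  have h1 : (S.card : ℝ) * (X : ℝ) ^ ((1 / 2 - δ) * β) ≤ 60 * X := by
    calc (S.card : ℝ) * (X : ℝ) ^ ((1 / 2 - δ) * β)
        ≤ (S.card : ℝ) * (((n.choose k : ℕ) : ℝ) * ((w : ℝ) / y) ^ k) :=
          mul_le_mul_of_nonneg_left hweight (by positivity)
      _ ≤ 20 * ((X : ℝ) + 1 + (R : ℝ) ^ 2) := hfin
      _ ≤ 60 * X := by linarith
  have hP : (0 : ℝ) < (X : ℝ) ^ ((1 / 2 - δ) * β) := by positivity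
  have h2 : 60 * (X : ℝ) ≤ (X : ℝ) ^ (3 / 4 + 1 / (2 * A) + ε) * (X : ℝ) ^ ((1 / 2 - δ) * β) := by
    rw [← Real.rpow_add hX0]
    calc 60 * (X : ℝ) ≤ (X : ℝ) ^ δ * (X : ℝ) ^ (1 : ℝ) := by
          rw [Real.rpow_one]
          exact mul_le_mul_of_nonneg_right g3 hX0.le
      _ = (X : ℝ) ^ (δ + 1) := by rw [← Real.rpow_add hX0]
      _ ≤ _ := by
          apply Real.rpow_le_rpow_of_exponent_le (by linarith)
          have e1 : 1 / (2 * A) = 1 / A / 2 := by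
            rw [div_div, mul_comm]
          rw [e1, hβ]
          nlinarith
  have h3 : (S.card : ℝ) * (X : ℝ) ^ ((1 / 2 - δ) * β) ≤
      (X : ℝ) ^ (3 / 4 + 1 / (2 * A) + ε) * (X : ℝ) ^ ((1 / 2 - δ) * β) := h1.trans h2
  exact le_of_mul_le_mul_right h3 hP

/-- rough runs starting anywhere -/
theorem rough_bound {A ε : ℝ} (hA : 2 < A) (hε : 0 < ε) :
    ∃ X₀ : ℕ, ∀ X : ℕ, X₀ ≤ X → ∀ M : ℕ, ∀ S : Finset ℕ,
      (∀ m ∈ S, M < m ∧ m ≤ M + X ∧ ∃ a, RoughRun ⌈Real.log X ^ A⌉₊ m a) →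
      (S.card : ℝ) ≤ (X : ℝ) ^ (3 / 4 + 1 / (2 * A) + ε) := by
  obtain ⟨δ, hδ, hδ1, X₀, hX₀⟩ := count_bound hA hε
  have hcast : Tendsto (fun X : ℕ => (X : ℝ)) atTop atTop := tendsto_natCast_atTop_atTop
  have hlogt : Tendsto (fun X : ℕ => Real.log X) atTop atTop := Real.tendsto_log_atTop.comp hcast
  have f1 : ∀ᶠ X : ℕ in atTop, (3 : ℝ) ≤ Real.log X ^ A :=
    ((tendsto_rpow_atTop (by linarith : 0 < A)).comp hlogt).eventually_ge_atTop _
  have f2 : ∀ᶠ X : ℕ in atTop, (0 : ℝ) < Real.log X := hlogt.eventually_gt_atTop 0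
  obtain ⟨X₁, hX₁⟩ := eventually_atTop.mp (f1.and f2)
  refine ⟨max X₀ X₁, fun X hX M S hS => ?_⟩
  obtain ⟨g1, g2⟩ := hX₁ X ((le_max_right _ _).trans hX)
  set L := ⌈Real.log X ^ A⌉₊ with hL
  have hLup : (L : ℝ) < Real.log X ^ A + 1 := Nat.ceil_lt_add_one (by positivity)
  have hLlo : Real.log X ^ A ≤ L := Nat.le_ceil _
  have hL3 : 3 ≤ L := by
    have : (3 : ℝ) ≤ L := g1.trans hLlo
    exact_mod_cast this
  have hy1 : (L : ℝ) ≤ 3 * ((L / 2 : ℕ) : ℝ) := by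
    have : L ≤ 3 * (L / 2) := by omega
    exact_mod_cast this
  have hy2 : 2 * ((L / 2 : ℕ) : ℝ) ≤ L := by
    have : 2 * (L / 2) ≤ L := by omega
    exact_mod_cast this
  refine hX₀ X ((le_max_left _ _).trans hX) (L / 2) ?_ ?_ M Om ?_ S ?_
  · have : (0 : ℝ) ≤ ((L / 2 : ℕ) : ℝ) := by positivity
    linarith
  · linarith
  · intro q hq
    obtain ⟨b1, b2, b3, b4⟩ := mem_filter.mp hq
    have h1 := orderOf_le_Om b2 b3
    have h2 := (orderOf_pos' b2 b3).1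
    exact ⟨Om_subset q, by omega, by omega, Om_card_lt b2.two_le⟩
  · intro m hm
    obtain ⟨h1, h2, a, ha⟩ := hS m hm
    refine ⟨h1, h2, fun q hq => ?_⟩
    obtain ⟨b1, b2, b3, b4⟩ := mem_filter.mp hq
    have b5 := (mem_Icc.mp b1).2
    exact not_mem_Om (by omega) ha b2 b3 (by omega)

end Pool.Agent.Lib.MP_9f2731_nt
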