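import Pool.Agent.Lib.MP_9f2731_nt.LS1

/-! The large sieve inequality for residue classes modulo primes. -/

namespace Pool.Agent.Lib.MP_9f2731_nt

open Finset

lemma orth {r : ℕ} (hr : 0 < r) (m : ℤ) :
    ∑ b ∈ range r, ee (b * ((m : ℝ) / r)) = if (r : ℤ) ∣ m then (r : ℂ) else 0 := by
  have hrR : (0 : ℝ) < r := by exact_mod_cast hr
  split_ifs with h
  · obtain ⟨k, hk⟩ := h
    have h1 : ∀ b ∈ range r, ee (b * ((m : ℝ) / r)) = 1 := by
      intro b _
      have h2 : (b : ℝ) * ((m : ℝ) / r) = (((b : ℤ) * k : ℤ) : ℝ) := by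
        rw [hk]; push_cast; field_simp
      rw [h2, ee_int]
    rw [Finset.sum_congr rfl h1]
    simp
  · set w := ee ((m : ℝ) / r) with hw
    have h1 : ∑ b ∈ range r, ee (b * ((m : ℝ) / r)) = ∑ b ∈ range r, w ^ b :=
      Finset.sum_congr rfl fun b _ => ee_nat_mul b _
    have h2 : w ^ r = 1 := by
      rw [hw, ← ee_nat_mul]
      have h3 : (r : ℝ) * ((m : ℝ) / r) = ((m : ℤ) : ℝ) := by field_simp
      rw [h3, ee_int]
    have h3 : w ≠ 1 := by
      intro h4
      apply h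
      set x := (m : ℝ) / r - round ((m : ℝ) / r) with hx
      have h5 : w = ee x := by
        have h6 : (m : ℝ) / r = x + ((round ((m : ℝ) / r) : ℤ) : ℝ) := by rw [hx]; ring
        rw [hw]
        nth_rewrite 1 [h6]
        rw [ee_add, ee_int, mul_one]
      have h7 := norm_ee_sub_one (x := x) (abs_sub_round _)
      rw [← h5, h4, sub_self, norm_zero] at h7
      have h8 : x = 0 := by
        have : |x| ≤ 0 := by linarith
        exact abs_eq_zero.mp (le_antisymm this (abs_nonneg _))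
      have h9 : (m : ℝ) = r * ((round ((m : ℝ) / r) : ℤ) : ℝ) := by
        have : (m : ℝ) / r = ((round ((m : ℝ) / r) : ℤ) : ℝ) := by
          rw [hx] at h8; linarith
        field_simp at this
        linarith
      exact ⟨round ((m : ℝ) / r), by exact_mod_cast h9⟩
    have h4 : (∑ b ∈ range r, w ^ b) * (w - 1) = 0 := by
      rw [geom_sum_mul, h2, sub_self]
    rw [h1]
    rcases mul_eq_zero.mp h4 with h5 | h5
    · exact h5
    · exact absurd (sub_eq_zero.mp h5) h3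

/-- finite Fourier transform -/
noncomputable def gh (r : ℕ) (g : ℕ → ℝ) (b : ℕ) : ℂ :=
  ∑ t ∈ range r, (g t : ℂ) * ee (-(b * ((t : ℝ) / r)))

lemma gh_zero {r : ℕ} {g : ℕ → ℝ} (hg : ∑ t ∈ range r, g t = 0) : gh r g 0 = 0 := by
  unfold gh
  simp only [Nat.cast_zero, zero_mul, neg_zero, ee_zero, mul_one]
  rw [← Complex.ofReal_sum, hg, Complex.ofReal_zero]

lemma gh_inv {r : ℕ} (hr : 0 < r) (g : ℕ → ℝ) (n : ℕ) :
    ∑ b ∈ range r, gh r g b * ee (n * ((b : ℝ) / r)) = (r : ℂ) * (g (n % r) : ℂ) := by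
  have hrR : (0 : ℝ) < r := by exact_mod_cast hr
  unfold gh
  simp_rw [Finset.sum_mul]
  rw [Finset.sum_comm]
  have h1 : ∀ t ∈ range r, ∑ b ∈ range r, (g t : ℂ) * ee (-(b * ((t : ℝ) / r))) * ee (n * ((b : ℝ) / r)) =
      if t = n % r then (r : ℂ) * (g (n % r) : ℂ) else 0 := by
    intro t ht
    rw [mem_range] at ht
    have h2 : ∀ b ∈ range r, (g t : ℂ) * ee (-(b * ((t : ℝ) / r))) * ee (n * ((b : ℝ) / r)) =
        (g t : ℂ) * ee (b * ((((n : ℤ) - (t : ℤ) : ℤ) : ℝ) / r)) := by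
      intro b _
      rw [mul_assoc, ← ee_add]
      congr 2
      push_cast
      field_simp
      ring
    rw [Finset.sum_congr rfl h2, ← Finset.mul_sum, orth hr]
    have h3 : ((r : ℤ) ∣ (n : ℤ) - (t : ℤ)) ↔ t = n % r := by
      rw [← Nat.modEq_iff_dvd]
      unfold Nat.ModEq
      rw [Nat.mod_eq_of_lt ht]
    by_cases h : t = n % r
    · rw [if_pos (h3.mpr h), if_pos h, h]
      ring
    · rw [if_neg (fun h' => h (h3.mp h')), if_neg h, mul_zero]
  rw [Finset.sum_congr rfl h1, Finset.sum_ite_eq', if_pos (mem_range.mpr (Nat.mod_lt n hr))]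

lemma gh_parseval {r : ℕ} (hr : 0 < r) (g : ℕ → ℝ) :
    ∑ b ∈ range r, ‖gh r g b‖ ^ 2 = (r : ℝ) * ∑ t ∈ range r, (g t) ^ 2 := by
  have hrR : (0 : ℝ) < r := by exact_mod_cast hr
  have h0 : ((∑ b ∈ range r, ‖gh r g b‖ ^ 2 : ℝ) : ℂ) =
      (((r : ℝ) * ∑ t ∈ range r, (g t) ^ 2 : ℝ) : ℂ) := by
    rw [Complex.ofReal_sum]
    have h1 : ∀ b ∈ range r, ((‖gh r g b‖ ^ 2 : ℝ) : ℂ) =
        ∑ t ∈ range r, (g t : ℂ) * (gh r g b * ee (t * ((b : ℝ) / r))) := by
      intro b _
      have h2 : ((‖gh r g b‖ ^ 2 : ℝ) : ℂ) = gh r g b * (starRingEnd ℂ) (gh r g b) := by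
        rw [Complex.mul_conj']
        push_cast
        rfl
      rw [h2]
      conv_lhs => rw [show (starRingEnd ℂ) (gh r g b) =
        ∑ t ∈ range r, (g t : ℂ) * ee (t * ((b : ℝ) / r)) by
          unfold gh
          rw [map_sum]
          refine Finset.sum_congr rfl fun t _ => ?_
          rw [map_mul, Complex.conj_ofReal, conj_ee]
          congr 2
          ring]
      rw [Finset.mul_sum]
      refine Finset.sum_congr rfl fun t _ => ?_
      ring
    rw [Finset.sum_congr rfl h1, Finset.sum_comm]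
    have h2 : ∀ t ∈ range r, ∑ b ∈ range r, (g t : ℂ) * (gh r g b * ee (t * ((b : ℝ) / r))) =
        (r : ℂ) * (g t : ℂ) ^ 2 := by
      intro t ht
      rw [mem_range] at ht
      rw [← Finset.mul_sum, gh_inv hr g t, Nat.mod_eq_of_lt ht]
      ring
    rw [Finset.sum_congr rfl h2, ← Finset.mul_sum]
    push_cast
    rfl
  exact_mod_cast h0

end Pool.Agent.Lib.MP_9f2731_nt
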