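import Mathlib

/-! Dual large sieve inequality for well spaced points, by a Fejer type kernel and Schur's test. -/

namespace Pool.Agent.Lib.MP_9f2731_nt

open Finset

/-- e(t) = exp(2 π i t) -/
noncomputable def ee (t : ℝ) : ℂ := Complex.exp (Complex.I * ((2 * Real.pi * t : ℝ) : ℂ))

lemma ee_add (s t : ℝ) : ee (s + t) = ee s * ee t := by
  unfold ee
  rw [← Complex.exp_add]
  congr 1
  push_cast
  ring

lemma ee_zero : ee 0 = 1 := by
  unfold ee; simp

lemma ee_int (n : ℤ) : ee n = 1 := by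
  unfold ee
  have := Complex.exp_int_mul_two_pi_mul_I n
  rw [← this]
  congr 1
  push_cast
  ring

lemma norm_ee (t : ℝ) : ‖ee t‖ = 1 := by
  unfold ee
  rw [mul_comm]
  exact Complex.norm_exp_ofReal_mul_I _

lemma ee_nat_mul (n : ℕ) (t : ℝ) : ee (n * t) = (ee t) ^ n := by
  induction n with
  | zero => simp [ee_zero]
  | succ n ih =>
    rw [pow_succ, ← ih, ← ee_add]
    congr 1
    push_cast
    ring

lemma conj_ee (t : ℝ) : (starRingEnd ℂ) (ee t) = ee (-t) := by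
  unfold ee
  rw [← Complex.exp_conj]
  congr 1
  rw [map_mul, Complex.conj_I, Complex.conj_ofReal]
  push_cast
  ring

lemma norm_ee_sub_one {x : ℝ} (hx : |x| ≤ 1 / 2) : 4 * |x| ≤ ‖ee x - 1‖ := by
  unfold ee
  rw [Complex.norm_exp_I_mul_ofReal_sub_one]
  have h1 : 2 * Real.pi * x / 2 = Real.pi * x := by ring
  rw [h1, Real.norm_eq_abs, abs_mul, abs_of_pos (by norm_num : (0 : ℝ) < 2)]
  have h2 : |Real.sin (Real.pi * x)| = Real.sin (Real.pi * |x|) := by
    have h3 : 0 ≤ Real.sin (Real.pi * |x|) := by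
      apply Real.sin_nonneg_of_nonneg_of_le_pi
      · positivity
      · nlinarith [Real.pi_pos]
    rcases abs_cases x with ⟨h, _⟩ | ⟨h, _⟩
    · rw [h] at h3 ⊢
      exact abs_of_nonneg h3
    · rw [h] at h3 ⊢
      rw [mul_neg, Real.sin_neg] at h3 ⊢
      rw [← abs_neg]
      exact abs_of_nonneg h3
  rw [h2]
  have h4 := Real.mul_le_sin (x := Real.pi * |x|) (by positivity) (by nlinarith [Real.pi_pos])
  have h5 : 2 / Real.pi * (Real.pi * |x|) = 2 * |x| := by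
    field_simp
  rw [h5] at h4
  linarith

/-- the geometric sum -/
noncomputable def GG (N : ℕ) (t : ℝ) : ℂ := ∑ k ∈ range N, ee (k * t)

lemma norm_GG_le (N : ℕ) (t : ℝ) : ‖GG N t‖ ≤ N := by
  unfold GG
  refine (norm_sum_le _ _).trans ?_
  simp [norm_ee]

lemma norm_GG_mul_le (N : ℕ) (t : ℝ) : ‖GG N t‖ * (2 * |t - round t|) ≤ 1 := by
  set x := t - round t with hx
  have hxt : t = x + ((round t : ℤ) : ℝ) := by rw [hx]; ring
  have h1 : GG N t = ∑ k ∈ range N, (ee x) ^ k := by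
    unfold GG
    refine Finset.sum_congr rfl fun k _ => ?_
    rw [← ee_nat_mul]
    have h2 : (k : ℝ) * t = k * x + (((k : ℤ) * round t : ℤ) : ℝ) := by
      push_cast
      nth_rewrite 1 [hxt]
      ring
    rw [h2, ee_add, ee_int, mul_one]
  have h3 : GG N t * (ee x - 1) = ee x ^ N - 1 := by
    rw [h1]; exact geom_sum_mul (ee x) N
  have h4 : ‖GG N t‖ * ‖ee x - 1‖ ≤ 2 := by
    rw [← norm_mul, h3]
    refine (norm_sub_le _ _).trans ?_
    rw [norm_pow, norm_ee]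
    norm_num
  have h5 := norm_ee_sub_one (x := x) (abs_sub_round t)
  have h6 := norm_nonneg (GG N t)
  nlinarith [abs_nonneg x]

lemma norm_GG_sq_le {N : ℕ} {t : ℝ} (h : t - round t ≠ 0) :
    ‖GG N t‖ ^ 2 ≤ 1 / (4 * (t - round t) ^ 2) := by
  have h1 := norm_GG_mul_le N t
  have h2 : 0 < |t - round t| := abs_pos.mpr h
  rw [le_div_iff₀ (by positivity)]
  have h3 : ‖GG N t‖ ^ 2 * (4 * (t - round t) ^ 2) = (‖GG N t‖ * (2 * |t - round t|)) ^ 2 := by
    rw [mul_pow, mul_pow, sq_abs]; ring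
  rw [h3]
  have h4 : 0 ≤ ‖GG N t‖ * (2 * |t - round t|) := by positivity
  nlinarith

lemma sum_sq_inv_nat (m : ℕ) : ∑ k ∈ Icc 1 m, 1 / (k : ℝ) ^ 2 ≤ 2 := by
  have h : ∀ m : ℕ, ∑ k ∈ Icc 1 m, 1 / (k : ℝ) ^ 2 ≤ 2 - 2 / ((m : ℝ) + 1) := by
    intro m
    induction m with
    | zero => norm_num
    | succ m ih =>
      rw [Finset.sum_Icc_succ_top (by omega)]
      push_cast
      have hm : (0 : ℝ) < (m : ℝ) + 1 := by positivity
      have h3 : 1 / ((m : ℝ) + 1) ^ 2 ≤ 2 / ((m : ℝ) + 1) - 2 / ((m : ℝ) + 1 + 1) := by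
        have h4 : 2 / ((m : ℝ) + 1) - 2 / ((m : ℝ) + 1 + 1) = 2 / (((m : ℝ) + 1) * ((m : ℝ) + 1 + 1)) := by
          field_simp; ring
        rw [h4, div_le_div_iff₀ (by positivity) (by positivity)]
        have : (0 : ℝ) ≤ m := by positivity
        nlinarith
      linarith
  refine (h m).trans ?_
  have : 0 ≤ 2 / ((m : ℝ) + 1) := by positivity
  linarith

lemma sum_sq_inv_half (J : Finset ℤ) (hinj : Set.InjOn Int.natAbs (J : Set ℤ))
    (h0 : ∀ z ∈ J, z ≠ 0) : ∑ z ∈ J, 1 / ((z : ℝ)) ^ 2 ≤ 2 := by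
  classical
  have h1 : ∑ z ∈ J, 1 / ((z : ℝ)) ^ 2 = ∑ k ∈ J.image Int.natAbs, 1 / (k : ℝ) ^ 2 := by
    rw [Finset.sum_image hinj]
    refine Finset.sum_congr rfl fun z _ => ?_
    rw [Nat.cast_natAbs, Int.cast_abs, sq_abs]
  rw [h1]
  have h2 : J.image Int.natAbs ⊆ Icc 1 ((J.image Int.natAbs).sup id) := by
    intro k hk
    rw [mem_Icc]
    refine ⟨?_, Finset.le_sup (f := id) hk⟩
    rw [mem_image] at hk
    obtain ⟨z, hz, rfl⟩ := hk
    exact Nat.one_le_iff_ne_zero.mpr (Int.natAbs_ne_zero.mpr (h0 z hz))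
  refine (Finset.sum_le_sum_of_subset_of_nonneg h2 fun k _ _ => by positivity).trans ?_
  exact sum_sq_inv_nat _

lemma sum_sq_inv_int (J : Finset ℤ) (h0 : ∀ z ∈ J, z ≠ 0) : ∑ z ∈ J, 1 / ((z : ℝ)) ^ 2 ≤ 4 := by
  classical
  rw [← Finset.sum_filter_add_sum_filter_not J (fun z => 0 < z)]
  have h1 : ∑ z ∈ J.filter (fun z => 0 < z), 1 / ((z : ℝ)) ^ 2 ≤ 2 := by
    apply sum_sq_inv_half
    · intro a ha b hb hab
      simp only [coe_filter, Set.mem_ofPred_eq] at ha hb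
      omega
    · intro z hz
      exact h0 z (mem_filter.mp hz).1
  have h2 : ∑ z ∈ J.filter (fun z => ¬ 0 < z), 1 / ((z : ℝ)) ^ 2 ≤ 2 := by
    apply sum_sq_inv_half
    · intro a ha b hb hab
      simp only [coe_filter, Set.mem_ofPred_eq] at ha hb
      omega
    · intro z hz
      exact h0 z (mem_filter.mp hz).1
  linarith

/-- row sums -/
lemma schur_row {ι : Type*} [DecidableEq ι] (J : Finset ι) (θ : ι → ℝ) {δ : ℝ} (hδ : 0 < δ)
    (hsep : ∀ i ∈ J, ∀ j ∈ J, i ≠ j → δ ≤ |(θ i - θ j) - round (θ i - θ j)|) (L : ℕ)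
    {i : ι} (hi : i ∈ J) :
    ∑ j ∈ J, ‖GG L (θ i - θ j)‖ ^ 2 ≤ (L : ℝ) ^ 2 + 4 / δ ^ 2 := by
  rw [← Finset.add_sum_erase J _ hi]
  apply add_le_add
  · have := norm_GG_le L (θ i - θ i)
    have h0 := norm_nonneg (GG L (θ i - θ i))
    nlinarith
  set x : ι → ℝ := fun j => (θ i - θ j) - round (θ i - θ j) with hx
  set z : ι → ℤ := fun j => ⌊x j / δ⌋ with hz
  have hxj : ∀ j ∈ J.erase i, δ ≤ |x j| := by
    intro j hj
    rw [mem_erase] at hj
    exact hsep i hi j hj.2 (Ne.symm hj.1)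
  have hzne : ∀ j ∈ J.erase i, z j ≠ 0 ∧ |(z j : ℝ)| * δ ≤ 2 * |x j| := by
    intro j hj
    have h1 := hxj j hj
    have h2 : (z j : ℝ) ≤ x j / δ := Int.floor_le _
    have h3 : x j / δ < (z j : ℝ) + 1 := Int.lt_floor_add_one _
    rw [le_div_iff₀ hδ] at h2
    rw [div_lt_iff₀ hδ] at h3
    rcases le_total 0 (x j) with h4 | h4
    · rw [abs_of_nonneg h4] at h1 ⊢
      have h5 : 0 < (z j : ℝ) := by
        by_contra h
        push Not at h
        have h6 : z j ≤ 0 := by exact_mod_cast h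
        have h7 : (z j : ℝ) + 1 ≤ 1 := by linarith
        nlinarith
      refine ⟨fun h => by rw [h] at h5; simp at h5, ?_⟩
      rw [abs_of_pos h5]
      linarith
    · rw [abs_of_nonpos h4] at h1 ⊢
      have h5 : (z j : ℝ) < 0 := by nlinarith
      have h6 : z j ≤ -1 := by
        have : z j < 0 := by exact_mod_cast h5
        omega
      refine ⟨by omega, ?_⟩
      rw [abs_of_neg h5]
      rcases h6.eq_or_lt with h7 | h7
      · rw [h7]; push_cast; linarith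
      · have h8 : z j ≤ -2 := by omega
        have h9 : (z j : ℝ) ≤ -2 := by exact_mod_cast h8
        nlinarith
  have hinj : Set.InjOn z (J.erase i : Set ι) := by
    intro j hj k hk hjk
    by_contra hne
    have hj' := (mem_erase.mp (Finset.mem_coe.mp hj)).2
    have hk' := (mem_erase.mp (Finset.mem_coe.mp hk)).2
    have h1 : |x j - x k| < δ := by
      have a1 : (z j : ℝ) ≤ x j / δ := Int.floor_le _
      have a2 : x j / δ < (z j : ℝ) + 1 := Int.lt_floor_add_one _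
      have a3 : (z k : ℝ) ≤ x k / δ := Int.floor_le _
      have a4 : x k / δ < (z k : ℝ) + 1 := Int.lt_floor_add_one _
      rw [le_div_iff₀ hδ] at a1 a3
      rw [div_lt_iff₀ hδ] at a2 a4
      have hjk' : (z j : ℝ) = z k := by exact_mod_cast hjk
      rw [hjk'] at a1 a2
      rw [abs_lt]
      constructor <;> nlinarith
    have h2 := hsep k hk' j hj' (Ne.symm hne)
    have h3 : x j - x k = (θ k - θ j) - ((round (θ i - θ j) - round (θ i - θ k) : ℤ) : ℝ) := by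
      rw [hx]; push_cast; ring
    have h4 := round_le (θ k - θ j) (round (θ i - θ j) - round (θ i - θ k))
    rw [← h3] at h4
    linarith
  have hb : ∀ j ∈ J.erase i, ‖GG L (θ i - θ j)‖ ^ 2 ≤ (1 / δ ^ 2) * (1 / (z j : ℝ) ^ 2) := by
    intro j hj
    have h1 := hxj j hj
    obtain ⟨h2, h3⟩ := hzne j hj
    have h4 : x j ≠ 0 := by
      intro h
      rw [h, abs_zero] at h1
      linarith
    have h5 := norm_GG_sq_le (N := L) h4
    refine h5.trans ?_
    have hz0 : (z j : ℝ) ≠ 0 := by exact_mod_cast h2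
    have hzpos : 0 < |(z j : ℝ)| := abs_pos.mpr hz0
    rw [← one_div_mul_one_div, one_div_mul_one_div, one_div_mul_one_div]
    apply one_div_le_one_div_of_le
    · rw [← sq_abs (z j : ℝ)]; positivity
    · have h6 : (|(z j : ℝ)| * δ) ^ 2 ≤ (2 * |x j|) ^ 2 := by
        apply pow_le_pow_left₀ (by positivity) h3
      rw [mul_pow, mul_pow, sq_abs, sq_abs] at h6
      have h7 : x j = θ i - θ j - round (θ i - θ j) := rfl
      rw [← h7]
      nlinarith
  refine (Finset.sum_le_sum hb).trans ?_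
  rw [← Finset.mul_sum]
  have h1 : ∑ j ∈ J.erase i, 1 / (z j : ℝ) ^ 2 = ∑ y ∈ (J.erase i).image z, 1 / ((y : ℤ) : ℝ) ^ 2 := by
    rw [Finset.sum_image hinj]
  have h2 := sum_sq_inv_int ((J.erase i).image z) (by
    intro y hy
    rw [mem_image] at hy
    obtain ⟨j, hj, rfl⟩ := hy
    exact (hzne j hj).1)
  rw [h1]
  calc 1 / δ ^ 2 * ∑ y ∈ (J.erase i).image z, 1 / ((y : ℤ) : ℝ) ^ 2 ≤ 1 / δ ^ 2 * 4 :=
        mul_le_mul_of_nonneg_left h2 (by positivity)
    _ = 4 / δ ^ 2 := by ring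

/-- dual large sieve -/
theorem dual_ls {ι : Type*} [DecidableEq ι] (J : Finset ι) (θ : ι → ℝ) {δ : ℝ} (hδ : 0 < δ)
    (hsep : ∀ i ∈ J, ∀ j ∈ J, i ≠ j → δ ≤ |(θ i - θ j) - round (θ i - θ j)|) (h : ℕ)
    (hh : 0 < h) (hL : 1 ≤ (2 * h : ℕ) * δ) (c : ι → ℂ) :
    ∑ n ∈ range (2 * h), ‖∑ j ∈ J, c j * ee (n * θ j)‖ ^ 2 ≤
      10 * ((2 * h : ℕ) : ℝ) * ∑ j ∈ J, ‖c j‖ ^ 2 := by
  set L := 2 * h with hLdef
  set c' : ι → ℂ := fun j => c j * ee (-(h * θ j)) with hc'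
  have hc'n : ∀ j, ‖c' j‖ = ‖c j‖ := by
    intro j
    rw [hc']
    simp [norm_ee]
  set F : ℕ → ℂ := fun m => ∑ j ∈ J, c' j * ee (m * θ j) with hF
  have hshift : ∀ n : ℕ, ∑ j ∈ J, c j * ee (n * θ j) = F (n + h) := by
    intro n
    rw [hF]
    refine Finset.sum_congr rfl fun j _ => ?_
    rw [hc']
    dsimp only
    rw [mul_assoc, ← ee_add]
    congr 2
    push_cast
    ring
  -- lower bound of the double sum
  have hlow : (h : ℝ) * ∑ n ∈ range L, ‖F (n + h)‖ ^ 2 ≤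
      ∑ k ∈ range L, ∑ l ∈ range L, ‖F (k + l)‖ ^ 2 := by
    have hsplit : ∑ n ∈ range L, ‖F (n + h)‖ ^ 2 =
        ∑ n ∈ range h, ‖F (n + h)‖ ^ 2 + ∑ n ∈ Ico h L, ‖F (n + h)‖ ^ 2 := by
      rw [Finset.sum_range_add_sum_Ico _ (by omega : h ≤ L)]
    have hsplit2 : ∑ k ∈ range L, ∑ l ∈ range L, ‖F (k + l)‖ ^ 2 =
        ∑ k ∈ range h, ∑ l ∈ range L, ‖F (k + l)‖ ^ 2 +
        ∑ k ∈ Ico h L, ∑ l ∈ range L, ‖F (k + l)‖ ^ 2 := by
      rw [Finset.sum_range_add_sum_Ico _ (by omega : h ≤ L)]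
    rw [hsplit, hsplit2, mul_add]
    apply add_le_add
    · have h1 : ∀ k ∈ range h, ∑ n ∈ range h, ‖F (n + h)‖ ^ 2 ≤ ∑ l ∈ range L, ‖F (k + l)‖ ^ 2 := by
        intro k hk
        rw [mem_range] at hk
        have h2 : ∑ n ∈ range h, ‖F (n + h)‖ ^ 2 = ∑ l ∈ (range h).image (fun n => n + h - k),
            ‖F (k + l)‖ ^ 2 := by
          rw [Finset.sum_image]
          · refine Finset.sum_congr rfl fun n _ => ?_
            congr 3
            omega
          · intro a _ b _ hab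
            have hab' : a + h - k = b + h - k := hab
            omega
        rw [h2]
        apply Finset.sum_le_sum_of_subset_of_nonneg
        · intro l hl
          rw [mem_image] at hl
          obtain ⟨n, hn, rfl⟩ := hl
          rw [mem_range] at hn ⊢
          omega
        · intro _ _ _; positivity
      have := Finset.sum_le_sum h1
      rwa [Finset.sum_const, card_range, nsmul_eq_mul] at this
    · have h1 : ∀ k ∈ Ico h L, ∑ n ∈ Ico h L, ‖F (n + h)‖ ^ 2 ≤ ∑ l ∈ range L, ‖F (k + l)‖ ^ 2 := by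
        intro k hk
        rw [mem_Ico] at hk
        have h2 : ∑ n ∈ Ico h L, ‖F (n + h)‖ ^ 2 = ∑ l ∈ (Ico h L).image (fun n => n + h - k),
            ‖F (k + l)‖ ^ 2 := by
          rw [Finset.sum_image]
          · refine Finset.sum_congr rfl fun n hn => ?_
            rw [mem_Ico] at hn
            congr 3
            omega
          · intro a ha b hb hab
            simp only [coe_Ico, Set.mem_Ico] at ha hb
            have hab' : a + h - k = b + h - k := hab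
            omega
        rw [h2]
        apply Finset.sum_le_sum_of_subset_of_nonneg
        · intro l hl
          rw [mem_image] at hl
          obtain ⟨n, hn, rfl⟩ := hl
          rw [mem_Ico] at hn
          rw [mem_range]
          omega
        · intro _ _ _; positivity
      have := Finset.sum_le_sum h1
      rw [Finset.sum_const, Nat.card_Ico, nsmul_eq_mul] at this
      have h3 : L - h = h := by omega
      rwa [h3] at this
  -- expansion of the double sum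
  have hexp : ((∑ k ∈ range L, ∑ l ∈ range L, ‖F (k + l)‖ ^ 2 : ℝ) : ℂ) =
      ∑ i ∈ J, ∑ j ∈ J, c' i * (starRingEnd ℂ) (c' j) * (GG L (θ i - θ j)) ^ 2 := by
    have h1 : ∀ m : ℕ, ((‖F m‖ ^ 2 : ℝ) : ℂ) =
        ∑ i ∈ J, ∑ j ∈ J, c' i * (starRingEnd ℂ) (c' j) * ee (m * (θ i - θ j)) := by
      intro m
      have h2 : ((‖F m‖ ^ 2 : ℝ) : ℂ) = F m * (starRingEnd ℂ) (F m) := by
        rw [Complex.mul_conj']
        push_cast
        rfl
      rw [h2, hF]
      dsimp only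
      rw [map_sum, Finset.sum_mul_sum]
      refine Finset.sum_congr rfl fun i _ => Finset.sum_congr rfl fun j _ => ?_
      rw [map_mul, conj_ee]
      have h3 : ee (m * (θ i - θ j)) = ee (m * θ i) * ee (-(m * θ j)) := by
        rw [← ee_add]; congr 1; ring
      rw [h3]; ring
    rw [Complex.ofReal_sum]
    simp_rw [Complex.ofReal_sum]
    have h2 : ∀ k ∈ range L, ∀ l ∈ range L, ((‖F (k + l)‖ ^ 2 : ℝ) : ℂ) =
        ∑ i ∈ J, ∑ j ∈ J, c' i * (starRingEnd ℂ) (c' j) * (ee (k * (θ i - θ j)) * ee (l * (θ i - θ j))) := by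
      intro k _ l _
      rw [h1]
      refine Finset.sum_congr rfl fun i _ => Finset.sum_congr rfl fun j _ => ?_
      rw [← ee_add]
      congr 2
      push_cast
      ring
    rw [Finset.sum_congr rfl fun k hk => Finset.sum_congr rfl fun l hl => h2 k hk l hl]
    have h3 : ∀ i j, c' i * (starRingEnd ℂ) (c' j) * (GG L (θ i - θ j)) ^ 2 =
        ∑ k ∈ range L, ∑ l ∈ range L, c' i * (starRingEnd ℂ) (c' j) *
          (ee (k * (θ i - θ j)) * ee (l * (θ i - θ j))) := by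
      intro i j
      unfold GG
      rw [sq, Finset.sum_mul_sum, Finset.mul_sum]
      refine Finset.sum_congr rfl fun k _ => ?_
      rw [Finset.mul_sum]
    simp_rw [h3]
    rw [Finset.sum_congr rfl fun k _ => Finset.sum_comm]
    rw [Finset.sum_comm]
    refine Finset.sum_congr rfl fun i _ => ?_
    rw [Finset.sum_congr rfl fun k _ => Finset.sum_comm]
    rw [Finset.sum_comm]
  -- upper bound
  set K : ℝ := (L : ℝ) ^ 2 + 4 / δ ^ 2 with hK
  have hLpos : (0 : ℝ) < L := by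
    have : 0 < L := by omega
    exact_mod_cast this
  have hK5 : K ≤ 5 * (L : ℝ) ^ 2 := by
    have h1 : 1 / δ ≤ L := by
      rw [div_le_iff₀ hδ]
      exact_mod_cast hL
    have h2 : 4 / δ ^ 2 = 4 * (1 / δ) ^ 2 := by field_simp
    have h3 : (1 / δ) ^ 2 ≤ (L : ℝ) ^ 2 := pow_le_pow_left₀ (by positivity) h1 2
    rw [hK, h2]
    linarith
  have hup : ∑ k ∈ range L, ∑ l ∈ range L, ‖F (k + l)‖ ^ 2 ≤ K * ∑ j ∈ J, ‖c j‖ ^ 2 := by
    have h0 : 0 ≤ ∑ k ∈ range L, ∑ l ∈ range L, ‖F (k + l)‖ ^ 2 :=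
      Finset.sum_nonneg fun _ _ => Finset.sum_nonneg fun _ _ => by positivity
    have h1 : ∑ k ∈ range L, ∑ l ∈ range L, ‖F (k + l)‖ ^ 2 =
        ‖((∑ k ∈ range L, ∑ l ∈ range L, ‖F (k + l)‖ ^ 2 : ℝ) : ℂ)‖ := by
      rw [Complex.norm_real, Real.norm_eq_abs, abs_of_nonneg h0]
    rw [h1, hexp]
    have h2 : ‖∑ i ∈ J, ∑ j ∈ J, c' i * (starRingEnd ℂ) (c' j) * (GG L (θ i - θ j)) ^ 2‖ ≤
        ∑ i ∈ J, ∑ j ∈ J, (‖c i‖ ^ 2 / 2 * ‖GG L (θ i - θ j)‖ ^ 2 +
          ‖c j‖ ^ 2 / 2 * ‖GG L (θ i - θ j)‖ ^ 2) := by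
      refine (norm_sum_le _ _).trans (Finset.sum_le_sum fun i _ => ?_)
      refine (norm_sum_le _ _).trans (Finset.sum_le_sum fun j _ => ?_)
      rw [norm_mul, norm_mul, RCLike.norm_conj, hc'n, hc'n, norm_pow]
      have h3 : 0 ≤ ‖GG L (θ i - θ j)‖ ^ 2 := by positivity
      have h4 : ‖c i‖ * ‖c j‖ ≤ ‖c i‖ ^ 2 / 2 + ‖c j‖ ^ 2 / 2 := by
        nlinarith [sq_nonneg (‖c i‖ - ‖c j‖)]
      calc ‖c i‖ * ‖c j‖ * ‖GG L (θ i - θ j)‖ ^ 2 ≤
            (‖c i‖ ^ 2 / 2 + ‖c j‖ ^ 2 / 2) * ‖GG L (θ i - θ j)‖ ^ 2 :=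
            mul_le_mul_of_nonneg_right h4 h3
        _ = _ := by ring
    refine h2.trans ?_
    have hsym : ∀ i j, ‖GG L (θ i - θ j)‖ = ‖GG L (θ j - θ i)‖ := by
      intro i j
      have h3 : GG L (θ i - θ j) = (starRingEnd ℂ) (GG L (θ j - θ i)) := by
        unfold GG
        rw [map_sum]
        refine Finset.sum_congr rfl fun k _ => ?_
        rw [conj_ee]
        congr 1
        ring
      rw [h3, RCLike.norm_conj]
    have h3 : ∑ i ∈ J, ∑ j ∈ J, (‖c i‖ ^ 2 / 2 * ‖GG L (θ i - θ j)‖ ^ 2 +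
          ‖c j‖ ^ 2 / 2 * ‖GG L (θ i - θ j)‖ ^ 2) =
        ∑ i ∈ J, ‖c i‖ ^ 2 * ∑ j ∈ J, ‖GG L (θ i - θ j)‖ ^ 2 := by
      simp_rw [Finset.sum_add_distrib]
      have h4 : ∑ i ∈ J, ∑ j ∈ J, ‖c j‖ ^ 2 / 2 * ‖GG L (θ i - θ j)‖ ^ 2 =
          ∑ i ∈ J, ∑ j ∈ J, ‖c i‖ ^ 2 / 2 * ‖GG L (θ i - θ j)‖ ^ 2 := by
        rw [Finset.sum_comm]
        refine Finset.sum_congr rfl fun i _ => Finset.sum_congr rfl fun j _ => ?_
        rw [hsym j i]
      rw [h4, ← Finset.sum_add_distrib]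
      refine Finset.sum_congr rfl fun i _ => ?_
      rw [← Finset.sum_add_distrib, Finset.mul_sum]
      refine Finset.sum_congr rfl fun j _ => ?_
      ring
    rw [h3, Finset.mul_sum]
    apply Finset.sum_le_sum
    intro i hi
    rw [mul_comm K]
    exact mul_le_mul_of_nonneg_left (schur_row J θ hδ hsep L hi) (by positivity)
  have hfin : (h : ℝ) * ∑ n ∈ range L, ‖F (n + h)‖ ^ 2 ≤ (h : ℝ) * (10 * (L : ℝ) * ∑ j ∈ J, ‖c j‖ ^ 2) := by
    have hc0 : 0 ≤ ∑ j ∈ J, ‖c j‖ ^ 2 := Finset.sum_nonneg fun _ _ => by positivity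
    have h1 := (hlow.trans hup).trans (mul_le_mul_of_nonneg_right hK5 hc0)
    have h2 : 5 * (L : ℝ) ^ 2 * ∑ j ∈ J, ‖c j‖ ^ 2 = (h : ℝ) * (10 * (L : ℝ) * ∑ j ∈ J, ‖c j‖ ^ 2) := by
      have : (L : ℝ) = 2 * h := by rw [hLdef]; push_cast; ring
      rw [this]; ring
    rw [h2] at h1
    exact h1
  have hhpos : (0 : ℝ) < h := by exact_mod_cast hh
  have hres := le_of_mul_le_mul_left hfin hhpos
  simp_rw [hshift]
  exact hres

end Pool.Agent.Lib.MP_9f2731_nt
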