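import Pool.Agent.Lib.MP_9f2731_nt.Window

/-! The union over the starting exponents `a ≤ X^η`. -/

namespace Pool.Agent.Lib.MP_9f2731_nt

open Finset Filter

theorem rough_bound_window {A η ε : ℝ} (hA : 1 < A) (hη : 0 ≤ η) (hε : 0 < ε) :
    ∃ X₀ : ℕ, ∀ X : ℕ, X₀ ≤ X → ∀ M : ℕ, ∀ S : Finset ℕ,
      (∀ m ∈ S, M < m ∧ m ≤ M + X ∧ ∃ a : ℕ, (a : ℝ) ≤ (X : ℝ) ^ η ∧
        RoughRunZ ⌊Real.log X ^ (2 * A)⌋₊ ⌈Real.log X ^ A⌉₊ m a) →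
      (S.card : ℝ) ≤ (X : ℝ) ^ (3 / 4 + 1 / (4 * A) + η + ε) := by
  classical
  obtain ⟨X₀, hX₀⟩ := rough_bound_fixed (ε := ε / 2) hA (by linarith)
  have hcast : Tendsto (fun X : ℕ => (X : ℝ)) atTop atTop := tendsto_natCast_atTop_atTop
  have f1 : ∀ᶠ X : ℕ in atTop, (2 : ℝ) ≤ (X : ℝ) ^ (ε / 2) :=
    ((tendsto_rpow_atTop (by linarith : 0 < ε / 2)).comp hcast).eventually_ge_atTop _
  obtain ⟨X₁, hX₁⟩ := eventually_atTop.mp (f1.and (eventually_ge_atTop 1))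
  refine ⟨max X₀ X₁, fun X hX M S hS => ?_⟩
  obtain ⟨g1, g2⟩ := hX₁ X ((le_max_right _ _).trans hX)
  have hX1 : (1 : ℝ) ≤ X := by exact_mod_cast g2
  have hX0 : (0 : ℝ) < X := by linarith
  set Z := ⌊Real.log X ^ (2 * A)⌋₊
  set L := ⌈Real.log X ^ A⌉₊
  set T := ⌊(X : ℝ) ^ η⌋₊ with hT
  set P : ℕ → Finset ℕ := fun a => S.filter fun m => RoughRunZ Z L m a with hP
  have h1 : S ⊆ (range (T + 1)).biUnion P := by
    intro m hm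
    obtain ⟨_, _, a, ha1, ha2⟩ := hS m hm
    rw [mem_biUnion]
    refine ⟨a, mem_range.mpr ?_, mem_filter.mpr ⟨hm, ha2⟩⟩
    have : a ≤ T := Nat.le_floor ha1
    omega
  have h2 : ∀ a ∈ range (T + 1), ((P a).card : ℝ) ≤ (X : ℝ) ^ (3 / 4 + 1 / (4 * A) + ε / 2) := by
    intro a _
    apply hX₀ X ((le_max_left _ _).trans hX) M a (P a)
    intro m hm
    obtain ⟨hm1, hm2⟩ := mem_filter.mp hm
    obtain ⟨k1, k2, _⟩ := hS m hm1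
    exact ⟨k1, k2, hm2⟩
  have h3 : (S.card : ℝ) ≤ ∑ a ∈ range (T + 1), ((P a).card : ℝ) := by
    have := (card_le_card h1).trans card_biUnion_le
    exact_mod_cast this
  have h4 : ∑ a ∈ range (T + 1), ((P a).card : ℝ) ≤
      ((T : ℝ) + 1) * (X : ℝ) ^ (3 / 4 + 1 / (4 * A) + ε / 2) := by
    have := sum_le_sum h2
    rw [sum_const, card_range, nsmul_eq_mul] at this
    push_cast at this
    exact this
  have h5 : (T : ℝ) + 1 ≤ (X : ℝ) ^ η * (X : ℝ) ^ (ε / 2) := by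
    have h6 : (T : ℝ) ≤ (X : ℝ) ^ η := Nat.floor_le (by positivity)
    have h7 : (1 : ℝ) ≤ (X : ℝ) ^ η := Real.one_le_rpow hX1 hη
    nlinarith
  calc (S.card : ℝ) ≤ ((T : ℝ) + 1) * (X : ℝ) ^ (3 / 4 + 1 / (4 * A) + ε / 2) := h3.trans h4
    _ ≤ ((X : ℝ) ^ η * (X : ℝ) ^ (ε / 2)) * (X : ℝ) ^ (3 / 4 + 1 / (4 * A) + ε / 2) :=
        mul_le_mul_of_nonneg_right h5 (by positivity)
    _ = (X : ℝ) ^ (3 / 4 + 1 / (4 * A) + η + ε) := by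
        rw [← Real.rpow_add hX0, ← Real.rpow_add hX0]
        congr 1
        ring

end Pool.Agent.Lib.MP_9f2731_nt
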