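import Pool.Agent.Lib.MP_9f2731_nt.Final

/-! The version of the theorem with a bounded starting exponent. -/

namespace Pool.Agent.Lib.MP_9f2731_nt

open Finset Filter

open scoped Classical in
/-- the classes `t` modulo `q` with `t 2^(a+i) = -1` for some `i` in `[h, 2h)` -/
noncomputable def OmW (a h q : ℕ) : Finset ℕ :=
  (range q).filter fun t => ∃ i : ℕ, h ≤ i ∧ i < 2 * h ∧ q ∣ t * 2 ^ (a + i) + 1

lemma OmW_subset (a h q : ℕ) : OmW a h q ⊆ range q := by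
  classical
  unfold OmW
  exact filter_subset _ _

lemma OmW_card_lt (a h : ℕ) {q : ℕ} (hq : 2 ≤ q) : (OmW a h q).card < q := by
  classical
  have h1 : OmW a h q ⊂ range q := by
    refine ⟨OmW_subset a h q, fun h' => ?_⟩
    have h0 : 0 ∈ OmW a h q := h' (mem_range.mpr (by omega))
    unfold OmW at h0
    rw [mem_filter] at h0
    obtain ⟨_, i, _, _, hi⟩ := h0
    rw [zero_mul, zero_add] at hi
    have := Nat.le_of_dvd one_pos hi
    omega
  have := card_lt_card h1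
  rwa [card_range] at this

lemma le_OmW (a : ℕ) {h w q : ℕ} (hq : q.Prime) (hq2 : q ≠ 2) (hw : w ≤ h)
    (hwo : w < orderOf (2 : ZMod q)) : w ≤ (OmW a h q).card := by
  classical
  have : Fact q.Prime := ⟨hq⟩
  set r := orderOf (2 : ZMod q) with hr
  have h2 : (2 : ZMod q) ≠ 0 := by
    intro h
    have : ((2 : ℕ) : ZMod q) = 0 := by exact_mod_cast h
    rw [ZMod.natCast_eq_zero_iff] at this
    exact hq2 ((Nat.prime_dvd_prime_iff_eq hq Nat.prime_two).mp this)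
  have h3 : (range w).card ≤ (OmW a h q).card := by
    refine card_le_card_of_injOn (fun i => (-((2 : ZMod q) ^ (a + (h + i)))⁻¹).val) ?_ ?_
    · intro i hi
      have hi' : i < w := by simpa using hi
      unfold OmW
      simp only [coe_filter, Set.mem_ofPred_eq, mem_range]
      refine ⟨ZMod.val_lt _, h + i, by omega, by omega, ?_⟩
      rw [← ZMod.natCast_eq_zero_iff]
      push_cast
      rw [ZMod.natCast_val, ZMod.cast_id', id_eq]
      have h5 : (2 : ZMod q) ^ (a + (h + i)) ≠ 0 := pow_ne_zero _ h2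
      rw [neg_mul, inv_mul_cancel₀ h5, neg_add_cancel]
    · intro i hi j hj hij
      have hi' : i < w := by simpa using hi
      have hj' : j < w := by simpa using hj
      have h4 : -((2 : ZMod q) ^ (a + (h + i)))⁻¹ = -((2 : ZMod q) ^ (a + (h + j)))⁻¹ :=
        ZMod.val_injective q hij
      have h5 : (2 : ZMod q) ^ (a + (h + i)) = (2 : ZMod q) ^ (a + (h + j)) :=
        inv_injective (neg_injective h4)
      have h6 : (2 : ZMod q) ^ (a + h) * 2 ^ i = (2 : ZMod q) ^ (a + h) * 2 ^ j := by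
        rw [← pow_add, ← pow_add, add_assoc, add_assoc]
        exact h5
      have h7 : (2 : ZMod q) ^ i = 2 ^ j := mul_left_cancel₀ (pow_ne_zero _ h2) h6
      exact pow_injOn_Iio_orderOf (by simp only [Set.mem_Iio]; omega) (by simp only [Set.mem_Iio]; omega) h7
  rwa [card_range] at h3

/-- the numbers `m 2^(a+i) + 1`, `i < L`, have no prime factor `q ≤ z` other than themselves -/
def RoughRunZ (z L m a : ℕ) : Prop :=
  ∀ i < L, ∀ q : ℕ, q.Prime → q ≤ z → q ∣ m * 2 ^ (a + i) + 1 → q = m * 2 ^ (a + i) + 1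

lemma not_mem_OmW {z m a L q h : ℕ} (hm : 1 ≤ m) (hh : 4 ≤ h) (hhL : 2 * h ≤ L) (hhz : h ^ 2 ≤ z)
    (hr : RoughRunZ z L m a) (hq : q.Prime) (hqh : q ≤ h ^ 2) :
    m % q ∉ OmW a h q := by
  classical
  intro hmem
  unfold OmW at hmem
  rw [mem_filter] at hmem
  obtain ⟨_, i, hi1, hi2, hi3⟩ := hmem
  have hi' : q ∣ m * 2 ^ (a + i) + 1 := by
    rw [← ZMod.natCast_eq_zero_iff] at hi3 ⊢
    push_cast at hi3 ⊢
    rw [ZMod.natCast_mod] at hi3
    exact hi3
  have heq := hr i (by omega) q hq (by omega) hi'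
  have h1 : h ^ 2 ≤ 2 ^ h := by
    clear hhL hhz hqh hi1 hi2
    induction h, hh using Nat.le_induction with
    | base => norm_num
    | succ n hn ih => rw [pow_succ 2 n]; nlinarith
  have h2 : 2 ^ h ≤ 2 ^ (a + i) := Nat.pow_le_pow_right (by norm_num) (by omega)
  have h3 : 1 * 2 ^ (a + i) ≤ m * 2 ^ (a + i) := Nat.mul_le_mul_right _ hm
  omega

/-- rough runs starting at exponent `a`, for one fixed `a` -/
theorem rough_bound_fixed {A ε : ℝ} (hA : 1 < A) (hε : 0 < ε) :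
    ∃ X₀ : ℕ, ∀ X : ℕ, X₀ ≤ X → ∀ M a : ℕ, ∀ S : Finset ℕ,
      (∀ m ∈ S, M < m ∧ m ≤ M + X ∧ RoughRunZ ⌊Real.log X ^ (2 * A)⌋₊ ⌈Real.log X ^ A⌉₊ m a) →
      (S.card : ℝ) ≤ (X : ℝ) ^ (3 / 4 + 1 / (4 * A) + ε) := by
  obtain ⟨δ, hδ, hδ1, X₀, hX₀⟩ := count_bound (A := 2 * A) (by linarith) hε
  have hcast : Tendsto (fun X : ℕ => (X : ℝ)) atTop atTop := tendsto_natCast_atTop_atTop
  have hlogt : Tendsto (fun X : ℕ => Real.log X) atTop atTop := Real.tendsto_log_atTop.comp hcast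
  have f1 : ∀ᶠ X : ℕ in atTop, (8 : ℝ) ≤ Real.log X ^ A :=
    ((tendsto_rpow_atTop (by linarith : 0 < A)).comp hlogt).eventually_ge_atTop _
  have f2 : ∀ᶠ X : ℕ in atTop, (0 : ℝ) < Real.log X := hlogt.eventually_gt_atTop 0
  obtain ⟨X₁, hX₁⟩ := eventually_atTop.mp (f1.and f2)
  refine ⟨max X₀ X₁, fun X hX M a S hS => ?_⟩
  obtain ⟨g1, g2⟩ := hX₁ X ((le_max_right _ _).trans hX)
  have hsq : Real.log X ^ (2 * A) = (Real.log X ^ A) ^ 2 := by
    rw [← Real.rpow_natCast, ← Real.rpow_mul g2.le]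
    congr 1
    push_cast
    ring
  set L := ⌈Real.log X ^ A⌉₊ with hL
  have hLup : (L : ℝ) < Real.log X ^ A + 1 := Nat.ceil_lt_add_one (by positivity)
  have hLlo : Real.log X ^ A ≤ L := Nat.le_ceil _
  have hL3 : 8 ≤ L := by
    have : (8 : ℝ) ≤ L := g1.trans hLlo
    exact_mod_cast this
  set h := L / 2 with hh
  have hh4 : 4 ≤ h := by omega
  have hhL : 2 * h ≤ L := by omega
  have hy1 : (L : ℝ) ≤ 3 * (h : ℝ) := by
    have : L ≤ 3 * h := by omega
    exact_mod_cast this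
  have hy2 : 2 * (h : ℝ) ≤ L := by exact_mod_cast hhL
  have hh0 : (0 : ℝ) ≤ (h : ℝ) := by positivity
  have hhup : (h : ℝ) ≤ Real.log X ^ A := by linarith
  have hh2up : ((h ^ 2 : ℕ) : ℝ) ≤ Real.log X ^ (2 * A) := by
    rw [hsq]
    push_cast
    exact pow_le_pow_left₀ hh0 hhup 2
  have e1 : 1 / (2 * (2 * A)) = 1 / (4 * A) := by
    congr 1
    ring
  rw [← e1]
  have hw : ⌊((h ^ 2 : ℕ) : ℝ) ^ ((1 : ℝ) / 2 - δ)⌋₊ ≤ h := by
    have h1 : ((h ^ 2 : ℕ) : ℝ) ^ ((1 : ℝ) / 2 - δ) ≤ h := by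
      have h2 : ((h ^ 2 : ℕ) : ℝ) ^ ((1 : ℝ) / 2 - δ) ≤ ((h ^ 2 : ℕ) : ℝ) ^ ((1 : ℝ) / 2) := by
        apply Real.rpow_le_rpow_of_exponent_le
        · have : 1 ≤ h ^ 2 := Nat.one_le_pow _ _ (by omega)
          exact_mod_cast this
        · linarith
      refine h2.trans (le_of_eq ?_)
      push_cast
      rw [← Real.sqrt_eq_rpow, Real.sqrt_sq hh0]
    exact Nat.floor_le_of_le h1
  refine hX₀ X ((le_max_left _ _).trans hX) (h ^ 2) ?_ hh2up M (OmW a h) ?_ S ?_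
  · rw [hsq]
    push_cast
    have h3 : Real.log X ^ A ≤ 3 * h := hLlo.trans hy1
    have h4 : (Real.log X ^ A) ^ 2 ≤ (3 * (h : ℝ)) ^ 2 := pow_le_pow_left₀ (by positivity) h3 2
    linarith
  · intro q hq
    obtain ⟨b1, b2, b3, b4⟩ := mem_filter.mp hq
    have h1 := le_OmW a b2 b3 hw b4
    have h2 : 0 < ⌊((h ^ 2 : ℕ) : ℝ) ^ ((1 : ℝ) / 2 - δ)⌋₊ := by
      apply Nat.floor_pos.mpr
      apply Real.one_le_rpow
      · have : 1 ≤ h ^ 2 := Nat.one_le_pow _ _ (by omega)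
        exact_mod_cast this
      · linarith
    exact ⟨OmW_subset a h q, h1, by omega, OmW_card_lt a h b2.two_le⟩
  · intro m hm
    obtain ⟨h1, h2, ha⟩ := hS m hm
    refine ⟨h1, h2, fun q hq => ?_⟩
    obtain ⟨b1, b2, b3, b4⟩ := mem_filter.mp hq
    have b5 := (mem_Icc.mp b1).2
    exact not_mem_OmW (by omega) hh4 hhL (Nat.le_floor hh2up) ha b2 b5

end Pool.Agent.Lib.MP_9f2731_nt
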